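import Pool.Agent.W_3f3beb_h76.CohC
import Pool.Agent.W_3f3beb_h76.CohD

/-!
# MP_3f3beb_al: second cohomology from a partial resolution

The number of two-cocycles which are independent modulo coboundaries is at most
`s_2 - rank E_1 - rank E_2`.
-/

set_option autoImplicit false

open scoped Classical

namespace PDG

/-- the identity of a two-cocycle with values in the trivial module -/
def CocId (p : ℕ) {W : Type} [Group W] (f : W → W → ZMod p) : Prop :=
  ∀ x y z : W, f y z + f x (y * z) = f (x * y) z + f x y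

/-- coboundaries -/
def Cob (p : ℕ) {W : Type} [Group W] (f : W → W → ZMod p) : Prop :=
  ∃ u : W → ZMod p, ∀ x y : W, f x y = u x + u y - u (x * y)

variable (p : ℕ) [Fact p.Prime] (H : Type) [Group H]
variable {ι₀ ι₁ ι₂ ι₃ : Type} [Fintype ι₀] [Fintype ι₁] [Fintype ι₂] [Fintype ι₃]
variable (D0 : Matrix ι₁ ι₀ (MonoidAlgebra ℤ H)) (D1 : Matrix ι₂ ι₁ (MonoidAlgebra ℤ H))
variable (D2 : Matrix ι₃ ι₂ (MonoidAlgebra ℤ H)) (e : ι₀ → ℤ)

/-- `∑ c_g g ↦ ∑ c_g f (·, g)` -/
noncomputable def CocA_phi (a : MonoidAlgebra ℤ H) :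
    (H → H → ZMod p) →ₗ[ZMod p] (H → ZMod p) where
  toFun f x := a.coeff.sum (fun g c => ((c : ℤ) : ZMod p) * f x g)
  map_add' f f' := by
    funext x
    simp only [Finsupp.sum, Pi.add_apply, mul_add, Finset.sum_add_distrib]
  map_smul' r f := by
    funext x
    simp only [Finsupp.sum, Pi.smul_apply, smul_eq_mul, RingHom.id_apply, Finset.mul_sum]
    refine Finset.sum_congr rfl fun g _ => ?_
    ring

theorem CocA_phi_apply (a : MonoidAlgebra ℤ H) (f : H → H → ZMod p) (x : H) :
    CocA_phi p H a f x = a.coeff.sum (fun g c => ((c : ℤ) : ZMod p) * f x g) := rfl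

theorem CocA_phi_add (a b : MonoidAlgebra ℤ H) (f : H → H → ZMod p) :
    CocA_phi p H (a + b) f = CocA_phi p H a f + CocA_phi p H b f := by
  funext x
  rw [Pi.add_apply, CocA_phi_apply, CocA_phi_apply, CocA_phi_apply, MonoidAlgebra.coeff_add,
    Finsupp.sum_add_index']
  · intro g
    simp
  · intro g c d
    push_cast
    ring

theorem CocA_phi_zero (f : H → H → ZMod p) : CocA_phi p H 0 f = 0 := by
  funext x
  rw [CocA_phi_apply]
  simp

theorem CocA_phi_single (g : H) (c : ℤ) (f : H → H → ZMod p) :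
    CocA_phi p H (MonoidAlgebra.single g c) f = fun x => ((c : ℤ) : ZMod p) * f x g := by
  funext x
  rw [CocA_phi_apply, MonoidAlgebra.coeff_single, Finsupp.sum_single_index]
  simp

theorem CocA_phi_mul (f : H → H → ZMod p) (hf : CocId p f) (y : H) (c : ℤ)
    (a : MonoidAlgebra ℤ H) :
    CocA_phi p H (MonoidAlgebra.single y c * a) f -
      act p H (MonoidAlgebra.single y c) (CocA_phi p H a f) -
      ((c * aug H a : ℤ) : ZMod p) • (fun x => f x y) ∈ Nn p H 1 := by
  induction a using MonoidAlgebra.induction_linear with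
  | zero =>
    rw [mul_zero, CocA_phi_zero, map_zero, map_zero, mul_zero, Int.cast_zero, zero_smul, sub_zero,
      sub_zero]
    exact Submodule.zero_mem _
  | add a b ha hb =>
    have h1 : CocA_phi p H (MonoidAlgebra.single y c * (a + b)) f -
      act p H (MonoidAlgebra.single y c) (CocA_phi p H (a + b) f) -
      ((c * aug H (a + b) : ℤ) : ZMod p) • (fun x => f x y) =
      (CocA_phi p H (MonoidAlgebra.single y c * a) f -
      act p H (MonoidAlgebra.single y c) (CocA_phi p H a f) -
      ((c * aug H a : ℤ) : ZMod p) • (fun x => f x y)) +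
      (CocA_phi p H (MonoidAlgebra.single y c * b) f -
      act p H (MonoidAlgebra.single y c) (CocA_phi p H b f) -
      ((c * aug H b : ℤ) : ZMod p) • (fun x => f x y)) := by
      rw [mul_add, CocA_phi_add, CocA_phi_add, map_add, map_add, mul_add, Int.cast_add, add_smul]
      abel
    rw [h1]
    exact Submodule.add_mem _ ha hb
  | single g d =>
    refine (mem_Nn_one p H _).2 ⟨- ((c * d : ℤ) : ZMod p) * f y g, ?_⟩
    funext x
    rw [MonoidAlgebra.single_mul_single, CocA_phi_single, CocA_phi_single, act_single,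
      CohA_aug_single]
    simp only [Pi.sub_apply, Pi.smul_apply, smul_eq_mul, tr_apply']
    have h1 := hf x y g
    push_cast
    linear_combination ((c : ZMod p) * d) * h1

/-- the map of free modules -/
noncomputable def CocA_Phi (x : ι₀ → MonoidAlgebra ℤ H) :
    (H → H → ZMod p) →ₗ[ZMod p] (H → ZMod p) :=
  ∑ j, ((e j : ℤ) : ZMod p) • CocA_phi p H (x j)

theorem CocA_Phi_apply (x : ι₀ → MonoidAlgebra ℤ H) (f : H → H → ZMod p) :
    CocA_Phi p H e x f = ∑ j, ((e j : ℤ) : ZMod p) • CocA_phi p H (x j) f := by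
  simp [CocA_Phi, LinearMap.sum_apply]

theorem CocA_Phi_add (x y : ι₀ → MonoidAlgebra ℤ H) (f : H → H → ZMod p) :
    CocA_Phi p H e (x + y) f = CocA_Phi p H e x f + CocA_Phi p H e y f := by
  rw [CocA_Phi_apply, CocA_Phi_apply, CocA_Phi_apply, ← Finset.sum_add_distrib]
  refine Finset.sum_congr rfl fun j _ => ?_
  rw [Pi.add_apply, CocA_phi_add, smul_add]

theorem CocA_Phi_zero (f : H → H → ZMod p) : CocA_Phi p H e 0 f = 0 := by
  rw [CocA_Phi_apply]
  refine Finset.sum_eq_zero fun j _ => ?_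
  rw [Pi.zero_apply, CocA_phi_zero, smul_zero]

theorem CocA_Phi_sub (x y : ι₀ → MonoidAlgebra ℤ H) (f : H → H → ZMod p) :
    CocA_Phi p H e (x - y) f = CocA_Phi p H e x f - CocA_Phi p H e y f := by
  have h := CocA_Phi_add p H e (x - y) y f
  rw [sub_add_cancel] at h
  rw [h]
  abel

theorem CocA_Phi_single (f : H → H → ZMod p) (hf : CocId p f) (y : H) (c : ℤ)
    (x : ι₀ → MonoidAlgebra ℤ H) :
    CocA_Phi p H e (MonoidAlgebra.single y c • x) f -
      act p H (MonoidAlgebra.single y c) (CocA_Phi p H e x f) -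
      ((c * eps e x : ℤ) : ZMod p) • (fun x => f x y) ∈ Nn p H 1 := by
  have h1 : CocA_Phi p H e (MonoidAlgebra.single y c • x) f -
      act p H (MonoidAlgebra.single y c) (CocA_Phi p H e x f) -
      ((c * eps e x : ℤ) : ZMod p) • (fun x => f x y) =
      ∑ j, ((e j : ℤ) : ZMod p) • (CocA_phi p H (MonoidAlgebra.single y c * x j) f -
      act p H (MonoidAlgebra.single y c) (CocA_phi p H (x j) f) -
      ((c * aug H (x j) : ℤ) : ZMod p) • (fun x => f x y)) := by
    rw [CocA_Phi_apply, CocA_Phi_apply, map_sum]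
    have h2 : ((c * eps e x : ℤ) : ZMod p) • (fun x => f x y) =
        ∑ j, ((e j : ℤ) : ZMod p) • (((c * aug H (x j) : ℤ) : ZMod p) • (fun x => f x y)) := by
      unfold eps
      rw [Finset.mul_sum]
      push_cast
      rw [Finset.sum_smul]
      refine Finset.sum_congr rfl fun j _ => ?_
      rw [smul_smul]
      congr 1
      ring
    rw [h2, ← Finset.sum_sub_distrib, ← Finset.sum_sub_distrib]
    refine Finset.sum_congr rfl fun j _ => ?_
    rw [map_smul, smul_sub, smul_sub, Pi.smul_apply, smul_eq_mul]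
  rw [h1]
  exact Submodule.sum_mem _ fun j _ => Submodule.smul_mem _ _ (CocA_phi_mul p H f hf y c (x j))

theorem CocA_Phi_smul (f : H → H → ZMod p) (hf : CocId p f) (x : ι₀ → MonoidAlgebra ℤ H)
    (hx : eps e x = 0) (b : MonoidAlgebra ℤ H) :
    CocA_Phi p H e (b • x) f - act p H b (CocA_Phi p H e x f) ∈ Nn p H 1 := by
  induction b using MonoidAlgebra.induction_linear with
  | zero =>
    rw [zero_smul, CocA_Phi_zero, map_zero, LinearMap.zero_apply, sub_zero]
    exact Submodule.zero_mem _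
  | add a b ha hb =>
    have h1 : CocA_Phi p H e ((a + b) • x) f - act p H (a + b) (CocA_Phi p H e x f) =
        (CocA_Phi p H e (a • x) f - act p H a (CocA_Phi p H e x f)) +
        (CocA_Phi p H e (b • x) f - act p H b (CocA_Phi p H e x f)) := by
      rw [add_smul, CocA_Phi_add, map_add, LinearMap.add_apply]
      abel
    rw [h1]
    exact Submodule.add_mem _ ha hb
  | single y c =>
    have h1 := CocA_Phi_single p H e f hf y c x
    rw [hx, mul_zero, Int.cast_zero, zero_smul, sub_zero] at h1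
    exact h1

/-- the cochain in degree one -/
noncomputable def CocA_v : (H → H → ZMod p) →ₗ[ZMod p] (ι₁ → H → ZMod p) :=
  LinearMap.pi fun k => CocA_Phi p H e (D0 k)

theorem CocA_v_apply (f : H → H → ZMod p) (k : ι₁) :
    CocA_v p H D0 e f k = CocA_Phi p H e (D0 k) f := rfl

theorem CocA_Phi_sum {κ : Type} (s : Finset κ) (x : κ → ι₀ → MonoidAlgebra ℤ H)
    (f : H → H → ZMod p) :
    CocA_Phi p H e (∑ k ∈ s, x k) f = ∑ k ∈ s, CocA_Phi p H e (x k) f := by
  induction s using Finset.induction_on with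
  | empty => rw [Finset.sum_empty, Finset.sum_empty, CocA_Phi_zero]
  | insert a s ha ih => rw [Finset.sum_insert ha, Finset.sum_insert ha, CocA_Phi_add, ih]

theorem CocA_Phi_vecMul (h : PRes D0 D1 e) (f : H → H → ZMod p) (hf : CocId p f)
    (z : ι₁ → MonoidAlgebra ℤ H) :
    CocA_Phi p H e (Matrix.vecMul z D0) f - hm p H (CocA_v p H D0 e f) z ∈ Nn p H 1 := by
  have h1 : Matrix.vecMul z D0 = ∑ k, z k • D0 k := by
    funext j
    simp [Matrix.vecMul, dotProduct, Finset.sum_apply]
  rw [h1, CocA_Phi_sum]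
  unfold hm
  rw [← Finset.sum_sub_distrib]
  refine Submodule.sum_mem _ fun k _ => ?_
  rw [CocA_v_apply]
  exact CocA_Phi_smul p H e f hf (D0 k) (CohD_eps_row H D0 D1 e h k) (z k)

/-- the cochain in degree two -/
noncomputable def CocA_w : (H → H → ZMod p) →ₗ[ZMod p] (ι₂ → ZMod p) :=
  LinearMap.pi fun l => (LinearMap.proj (1 : H)).comp
    ((LinearMap.proj l).comp ((del p H D1).comp (CocA_v p H D0 e)))

theorem CocA_w_apply (f : H → H → ZMod p) (l : ι₂) :
    CocA_w p H D0 D1 e f l = del p H D1 (CocA_v p H D0 e f) l 1 := rfl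

theorem CocA_del (h : PRes D0 D1 e) (f : H → H → ZMod p) (hf : CocId p f) (l : ι₂) :
    del p H D1 (CocA_v p H D0 e f) l = fun _ => CocA_w p H D0 D1 e f l := by
  have h1 : del p H D1 (CocA_v p H D0 e f) l = hm p H (CocA_v p H D0 e f) (D1 l) := by
    rw [CohA_del_apply]
    rfl
  have h2 : Matrix.vecMul (D1 l) D0 = 0 := by
    rw [h.ex1]
    refine ⟨Pi.single l 1, ?_⟩
    rw [Matrix.single_one_vecMul]
    rfl
  have h3 := CocA_Phi_vecMul p H D0 D1 e h f hf (D1 l)
  rw [h2, CocA_Phi_zero, zero_sub, ← h1] at h3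
  have h4 := Submodule.neg_mem _ h3
  rw [neg_neg] at h4
  obtain ⟨c, hc⟩ := (mem_Nn_one p H _).1 h4
  rw [CocA_w_apply, hc]

theorem CocA_const {α β : Type} [Fintype β] (D : Matrix α β (MonoidAlgebra ℤ H)) (c : β → ZMod p)
    (k : α) : del p H D (fun j _ => c j) k = fun _ => Matrix.mulVec (Emod p D) c k := by
  rw [CohA_del_apply]
  funext x
  rw [Finset.sum_apply]
  simp only [Matrix.mulVec, dotProduct]
  refine Finset.sum_congr rfl fun j _ => ?_
  rw [CohA_act_const]
  rfl

/-- if the cochain in degree two is a coboundary, so is the cocycle -/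
theorem CocA_cob (h : PRes D0 D1 e) (f : H → H → ZMod p) (hf : CocId p f) (c : ι₁ → ZMod p)
    (hc : Matrix.mulVec (Emod p D1) c = CocA_w p H D0 D1 e f) : Cob p f := by
  obtain ⟨x₀, hx₀⟩ := h.surj
  have hy' : ∀ g : H, ∃ y, Matrix.vecMul y D0 = MonoidAlgebra.single g (1 : ℤ) • x₀ - x₀ := by
    intro g
    rw [← h.ex0, CohA_eps_sub, CohA_eps_smul, CohA_aug_single, hx₀]
    ring
  choose y hy using hy'
  set v : ι₁ → H → ZMod p := CocA_v p H D0 e f - fun j _ => c j with hv
  have hv0 : del p H D1 v = 0 := by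
    funext l
    rw [hv, map_sub, Pi.sub_apply, CocA_del p H D0 D1 e h f hf, CocA_const, hc]
    funext x
    simp
  have hT := CohC_tr p H D0 D1 e h x₀ y hy v hv0
  set F := CohC_T p H y v with hF
  -- `tr g F - F - Φ (g x₀ - x₀)` is constant
  have h1 : ∀ g : H, tr p H g F - F - CocA_Phi p H e (MonoidAlgebra.single g (1 : ℤ) • x₀ - x₀) f ∈
      Nn p H 1 := by
    intro g
    have h2 := CocA_Phi_vecMul p H D0 D1 e h f hf (y g)
    rw [hy] at h2
    have h3 : hm p H v (y g) = hm p H (CocA_v p H D0 e f) (y g) -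
        hm p H (fun j _ => c j) (y g) := by
      rw [hv, CohD_hm_sub_left]
    have h4 : hm p H (fun j _ => c j) (y g) ∈ Nn p H 1 := by
      refine CohD_hm_mem p H 1 _ ?_ _
      unfold Xm
      rw [Submodule.mem_pi]
      exact fun j _ => (mem_Nn_one p H _).2 ⟨c j, rfl⟩
    rw [hT g, h3]
    have h5 : hm p H (CocA_v p H D0 e f) (y g) - hm p H (fun j _ => c j) (y g) -
        CocA_Phi p H e (MonoidAlgebra.single g (1 : ℤ) • x₀ - x₀) f =
        -(CocA_Phi p H e (MonoidAlgebra.single g (1 : ℤ) • x₀ - x₀) f -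
          hm p H (CocA_v p H D0 e f) (y g)) - hm p H (fun j _ => c j) (y g) := by
      abel
    rw [h5]
    exact Submodule.sub_mem _ (Submodule.neg_mem _ h2) h4
  set θ : H → ZMod p := F - CocA_Phi p H e x₀ f with hθ
  have h2 : ∀ g : H, ∃ k : ZMod p, ∀ x : H, θ (x * g) - θ x - f x g = k := by
    intro g
    have h3 := CocA_Phi_single p H e f hf g 1 x₀
    rw [hx₀, mul_one, Int.cast_one, one_smul, act_single, Int.cast_one, one_smul] at h3
    have h4 := h1 g
    rw [CocA_Phi_sub] at h4
    have h5 := Submodule.add_mem _ h4 h3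
    obtain ⟨k, hk⟩ := (mem_Nn_one p H _).1 h5
    refine ⟨k, fun x => ?_⟩
    have h6 := congrFun hk x
    simp only [Pi.add_apply, Pi.sub_apply, tr_apply'] at h6
    rw [hθ]
    simp only [Pi.sub_apply]
    linear_combination h6
  have h3 : ∀ g : H, f 1 g = f 1 1 := by
    intro g
    have := hf 1 1 g
    rw [one_mul, one_mul] at this
    linear_combination this
  refine ⟨fun x => -θ x + (θ 1 + f 1 1), fun x g => ?_⟩
  obtain ⟨k, hk⟩ := h2 g
  have e1 := hk x
  have e2 := hk 1
  rw [one_mul] at e2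
  have e3 := h3 g
  linear_combination e2 - e1 + e3

/-- **Second cohomology.** -/
theorem CocA_ext (h : PRes D0 D1 e) (h21 : D2 * D1 = 0) {n : ℕ} (f : Fin n → H → H → ZMod p)
    (hf : ∀ i, CocId p (f i))
    (hind : ∀ a : Fin n → ZMod p, Cob p (fun x y => ∑ i, a i * f i x y) → a = 0) :
    n + (Emod p D1).rank + (Emod p D2).rank ≤ Fintype.card ι₂ := by
  let S : (Fin n → ZMod p) →ₗ[ZMod p] (H → H → ZMod p) :=
    { toFun := fun a x y => ∑ i, a i * f i x y
      map_add' := fun a b => by
        funext x y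
        simp only [Pi.add_apply, add_mul, Finset.sum_add_distrib]
      map_smul' := fun c a => by
        funext x y
        simp only [Pi.smul_apply, smul_eq_mul, RingHom.id_apply, Finset.mul_sum, mul_assoc] }
  have hS : ∀ a, CocId p (S a) := by
    intro a x y z
    change (∑ i, a i * f i y z) + (∑ i, a i * f i x (y * z)) =
      (∑ i, a i * f i (x * y) z) + (∑ i, a i * f i x y)
    rw [← Finset.sum_add_distrib, ← Finset.sum_add_distrib]
    refine Finset.sum_congr rfl fun i _ => ?_
    rw [← mul_add, ← mul_add, hf i x y z]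
  let Ψ : (Fin n → ZMod p) →ₗ[ZMod p] (ι₂ → ZMod p) := (CocA_w p H D0 D1 e).comp S
  let E1 : (ι₁ → ZMod p) →ₗ[ZMod p] (ι₂ → ZMod p) := (Emod p D1).mulVecLin
  let E2 : (ι₂ → ZMod p) →ₗ[ZMod p] (ι₃ → ZMod p) := (Emod p D2).mulVecLin
  have hΨ : ∀ a, Ψ a ∈ LinearMap.range E1 → a = 0 := by
    rintro a ⟨c, hc⟩
    exact hind a (CocA_cob p H D0 D1 e h (S a) (hS a) c hc)
  have hinj : Function.Injective Ψ := by
    rw [← LinearMap.ker_eq_bot, LinearMap.ker_eq_bot']
    intro a ha
    refine hΨ a ?_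
    rw [ha]
    exact Submodule.zero_mem _
  have hk1 : LinearMap.range Ψ ≤ LinearMap.ker E2 := by
    rintro _ ⟨a, rfl⟩
    rw [LinearMap.mem_ker]
    funext l
    have h1 : del p H D2 (del p H D1 (CocA_v p H D0 e (S a))) = 0 := by
      rw [← del_mul, h21]
      funext k
      rw [CohA_del_apply]
      refine Finset.sum_eq_zero fun j _ => ?_
      rw [Matrix.zero_apply, map_zero, LinearMap.zero_apply]
    have h2 : del p H D1 (CocA_v p H D0 e (S a)) = fun l _ => Ψ a l := by
      funext l
      exact CocA_del p H D0 D1 e h (S a) (hS a) l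
    rw [h2] at h1
    have h3 := CocA_const p H D2 (Ψ a) l
    have h4 : del p H D2 (fun j _ => Ψ a j) l = 0 := by rw [h1]; rfl
    rw [h4] at h3
    exact (congrFun h3 1).symm
  have hk2 : LinearMap.range E1 ≤ LinearMap.ker E2 := by
    rintro _ ⟨c, rfl⟩
    rw [LinearMap.mem_ker]
    funext l
    have h1 : del p H D2 (del p H D1 (fun j _ => c j)) = 0 := by
      rw [← del_mul, h21]
      funext k
      rw [CohA_del_apply]
      refine Finset.sum_eq_zero fun j _ => ?_
      rw [Matrix.zero_apply, map_zero, LinearMap.zero_apply]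
    have h2 : del p H D1 (fun j _ => c j) = fun l _ => E1 c l := by
      funext l
      exact CocA_const p H D1 c l
    rw [h2] at h1
    have h3 := CocA_const p H D2 (E1 c) l
    have h4 : del p H D2 (fun j _ => E1 c j) l = 0 := by rw [h1]; rfl
    rw [h4] at h3
    exact (congrFun h3 1).symm
  have hinf : LinearMap.range Ψ ⊓ LinearMap.range E1 = ⊥ := by
    rw [Submodule.eq_bot_iff]
    rintro x ⟨⟨a, rfl⟩, hx⟩
    rw [hΨ a hx, map_zero]
  have h1 := Submodule.finrank_sup_add_finrank_inf_eq (LinearMap.range Ψ) (LinearMap.range E1)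
  rw [hinf, finrank_bot, add_zero, LinearMap.finrank_range_of_inj hinj,
    Module.finrank_fintype_fun_eq_card, Fintype.card_fin] at h1
  have h2 : Module.finrank (ZMod p) (LinearMap.range Ψ ⊔ LinearMap.range E1 :
      Submodule (ZMod p) (ι₂ → ZMod p)) ≤ Module.finrank (ZMod p) (LinearMap.ker E2) :=
    Submodule.finrank_mono (sup_le hk1 hk2)
  have h3 := LinearMap.finrank_range_add_finrank_ker E2
  rw [Module.finrank_fintype_fun_eq_card] at h3
  have h4 : Module.finrank (ZMod p) (LinearMap.range E1) = (Emod p D1).rank := rfl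
  have h5 : Module.finrank (ZMod p) (LinearMap.range E2) = (Emod p D2).rank := rfl
  rw [h4] at h1
  rw [h5] at h3
  omega

end PDG
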