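import Pool.Agent.W_3f3beb_h30.CocA
import Pool.Agent.W_3f3beb_h76.DpA

/-!
# MP_3f3beb_al: bounds for the number of independent two-cocycles
-/

set_option autoImplicit false

open scoped Classical

namespace PDG

/-- two-cocycles of `W` inflated from a group `P`, independent modulo the coboundaries of `W` -/
structure IndCoc (p : ℕ) {W : Type} [Group W] {P : Type} [Group P] (π : W →* P) {n : ℕ}
    (F : Fin n → P → P → ZMod p) : Prop where
  coc : ∀ i, CocId p (fun x y : W => F i (π x) (π y))
  ind : ∀ a : Fin n → ZMod p, Cob p (fun x y : W => ∑ i, a i * F i (π x) (π y)) → a = 0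

/-- the bound for the number of independent two-cocycles inflated from a finite group -/
def CB1 (p : ℕ) [Fact p.Prime] (W : Type) [Group W] : Prop :=
  ∀ (P : Type) [Group P] [Finite P] (π : W →* P) (n : ℕ) (F : Fin n → P → P → ZMod p),
    IndCoc p π F → n ≤ max (max 1 (dp p W)) (2 * dp p W - 2)

/-- the bound for all subgroups of finite index -/
def CB (p : ℕ) [Fact p.Prime] (L : Type) [Group L] : Prop :=
  ∀ W : Subgroup L, W.FiniteIndex → CB1 p W

theorem IndCoc.congr (p : ℕ) {W W' : Type} [Group W] [Group W'] (E : W ≃* W') {P : Type} [Group P]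
    (π : W' →* P) {n : ℕ} (F : Fin n → P → P → ZMod p) (h : IndCoc p π F) :
    IndCoc p (π.comp E.toMonoidHom) F where
  coc i x y z := by
    have := h.coc i (E x) (E y) (E z)
    simp only [MonoidHom.comp_apply, MulEquiv.coe_toMonoidHom, map_mul] at this ⊢
    exact this
  ind a ha := by
    obtain ⟨u, hu⟩ := ha
    refine h.ind a ⟨fun x => u (E.symm x), fun x y => ?_⟩
    have h1 := hu (E.symm x) (E.symm y)
    simp only [MonoidHom.comp_apply, MulEquiv.coe_toMonoidHom, MulEquiv.apply_symm_apply] at h1
    change ∑ i, a i * F i (π x) (π y) = u (E.symm x) + u (E.symm y) - u (E.symm (x * y))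
    rw [h1, map_mul]

theorem CB1.congr {p : ℕ} [Fact p.Prime] {W W' : Type} [Group W] [Group W'] (E : W ≃* W')
    (h : CB1 p W) : CB1 p W' := by
  intro P _ _ π n F hF
  rw [← dp_congr p E]
  exact h P (π.comp E.toMonoidHom) n F (hF.congr p E π F)

theorem CB.subgroup {p : ℕ} [Fact p.Prime] {L : Type} [Group L] (h : CB p L) (H : Subgroup L)
    (hH : H.FiniteIndex) : CB p H := fun K hK =>
  (h _ (DpA_fin hH K hK)).congr (K.equivMapOfInjective H.subtype H.subtype_injective).symm

theorem CB.self {p : ℕ} [Fact p.Prime] {L : Type} [Group L] (h : CB p L) : CB1 p L :=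
  (h ⊤ inferInstance).congr Subgroup.topEquiv

/-- every homomorphism to `ℤ/p` is trivial -/
def NoHom (p : ℕ) (U : Type) [Group U] : Prop := ∀ χ : U →* Multiplicative (ZMod p), χ = 1

theorem NoHom.add {p : ℕ} {U : Type} [Group U] (h : NoHom p U) (χ : Additive U →+ ZMod p) :
    χ = 0 := by
  have h1 := h (AddMonoidHom.toMultiplicativeRight χ)
  refine AddMonoidHom.ext fun x => ?_
  have h2 := DFunLike.congr_fun h1 x.toMul
  exact congrArg Multiplicative.toAdd h2

/-- the carry of the addition modulo `p` -/
def CocB_carry (p : ℕ) (a b : ZMod p) : ZMod p := if p ≤ a.val + b.val then 1 else 0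

theorem CocB_carry_coc (p : ℕ) [Fact p.Prime] (a b c : ZMod p) :
    CocB_carry p b c + CocB_carry p a (b + c) = CocB_carry p (a + b) c + CocB_carry p a b := by
  have : NeZero p := ⟨(Fact.out : p.Prime).ne_zero⟩
  have ha := ZMod.val_lt a
  have hb := ZMod.val_lt b
  have hc := ZMod.val_lt c
  unfold CocB_carry
  rw [ZMod.val_add, ZMod.val_add]
  generalize a.val = x at *
  generalize b.val = y at *
  generalize c.val = z at *
  have key : ∀ s : ℕ, s < 2 * p → s % p = if p ≤ s then s - p else s := by
    intro s hs
    by_cases h : p ≤ s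
    · rw [if_pos h, Nat.mod_eq_sub_mod h, Nat.mod_eq_of_lt (by omega)]
    · rw [if_neg h, Nat.mod_eq_of_lt (by omega)]
  rw [key (y + z) (by omega), key (x + y) (by omega)]
  by_cases h1 : p ≤ y + z
  · by_cases h2 : p ≤ x + y
    · rw [if_pos h1, if_pos h1, if_pos h2, if_pos h2]
      by_cases h3 : p ≤ x + (y + z - p)
      · rw [if_pos h3, if_pos (by omega)]
      · rw [if_neg h3, if_neg (by omega)]
        ring
    · rw [if_pos h1, if_pos h1, if_neg h2, if_neg h2]
      by_cases h3 : p ≤ x + (y + z - p)
      · exfalso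
        omega
      · rw [if_neg h3, if_pos (by omega)]
  · by_cases h2 : p ≤ x + y
    · rw [if_neg h1, if_neg h1, if_pos h2, if_pos h2]
      by_cases h3 : p ≤ x + (y + z)
      · rw [if_pos h3, if_neg (by omega)]
      · exfalso
        omega
    · rw [if_neg h1, if_neg h1, if_neg h2, if_neg h2, zero_add, add_zero, ← add_assoc]

/-- the three cocycles of `ℤ/p × ℤ/p` -/
def CocB_F (p : ℕ) (i : Fin 3) (s t : Multiplicative (ZMod p) × Multiplicative (ZMod p)) :
    ZMod p :=
  if i = 0 then s.1.toAdd * t.2.toAdd
  else if i = 1 then CocB_carry p s.1.toAdd t.1.toAdd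
  else CocB_carry p s.2.toAdd t.2.toAdd

theorem CocB_F_coc (p : ℕ) [Fact p.Prime] (i : Fin 3)
    (x y z : Multiplicative (ZMod p) × Multiplicative (ZMod p)) :
    CocB_F p i y z + CocB_F p i x (y * z) = CocB_F p i (x * y) z + CocB_F p i x y := by
  unfold CocB_F
  by_cases h0 : i = 0
  · simp only [if_pos h0, Prod.fst_mul, Prod.snd_mul, toAdd_mul]
    ring
  · by_cases h1 : i = 1
    · simp only [if_neg h0, if_pos h1, Prod.fst_mul, toAdd_mul]
      exact CocB_carry_coc p _ _ _
    · simp only [if_neg h0, if_neg h1, Prod.snd_mul, toAdd_mul]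
      exact CocB_carry_coc p _ _ _

theorem CocB_carry_sum (p : ℕ) [Fact p.Prime] :
    ∑ k ∈ Finset.range p, CocB_carry p ((k : ℕ) : ZMod p) 1 = 1 := by
  have hp := (Fact.out : p.Prime)
  have : NeZero p := ⟨hp.ne_zero⟩
  have h1v : (1 : ZMod p).val = 1 := by
    have : Fact (1 < p) := ⟨hp.one_lt⟩
    exact ZMod.val_one p
  rw [Finset.sum_eq_single (p - 1)]
  · unfold CocB_carry
    rw [ZMod.val_natCast, Nat.mod_eq_of_lt (by have := hp.pos; omega), h1v, if_pos]
    have := hp.pos
    omega
  · intro k hk hk1
    have hk2 := Finset.mem_range.1 hk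
    unfold CocB_carry
    rw [ZMod.val_natCast, Nat.mod_eq_of_lt hk2, h1v, if_neg]
    omega
  · intro h
    exfalso
    apply h
    rw [Finset.mem_range]
    have := hp.pos
    omega

theorem CocB_carry_zero (p : ℕ) [Fact p.Prime] (a : ZMod p) : CocB_carry p a 0 = 0 ∧
    CocB_carry p 0 a = 0 := by
  have : NeZero p := ⟨(Fact.out : p.Prime).ne_zero⟩
  have ha := ZMod.val_lt a
  unfold CocB_carry
  rw [ZMod.val_zero, if_neg (by omega), if_neg (by omega)]
  exact ⟨rfl, rfl⟩

/-- **No quotient `ℤ/p × ℤ/p`.** -/
theorem CocB_noZp2 (p : ℕ) [Fact p.Prime] {M : Type} [Group M] (hCB : CB1 p M)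
    (π : M →* Multiplicative (ZMod p) × Multiplicative (ZMod p)) (hπ : Function.Surjective π)
    (hN : NoHom p π.ker) : False := by
  obtain ⟨m₁, hm₁⟩ := hπ (Multiplicative.ofAdd 1, 1)
  obtain ⟨m₂, hm₂⟩ := hπ (1, Multiplicative.ofAdd 1)
  -- the dimension of `Hom(M, F_p)`
  have hker : ∀ (θ : Additive M →+ ZMod p) (n : M), π n = 1 → θ (Additive.ofMul n) = 0 := by
    intro θ n hn
    have h1 := hN.add (θ.comp (MonoidHom.toAdditive π.ker.subtype))
    exact DFunLike.congr_fun h1 (Additive.ofMul (⟨n, hn⟩ : π.ker))
  have hdp : dp p M ≤ 2 := by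
    let Φ : (Additive M →+ ZMod p) →ₗ[ZMod p] (ZMod p × ZMod p) :=
      { toFun := fun θ => (θ (Additive.ofMul m₁), θ (Additive.ofMul m₂))
        map_add' := fun _ _ => rfl
        map_smul' := fun _ _ => rfl }
    have hΦ : Function.Injective Φ := by
      rw [← LinearMap.ker_eq_bot, LinearMap.ker_eq_bot']
      intro θ hθ
      have e1 : θ (Additive.ofMul m₁) = 0 := congrArg Prod.fst hθ
      have e2 : θ (Additive.ofMul m₂) = 0 := congrArg Prod.snd hθ
      refine AddMonoidHom.ext fun x => ?_
      set m : M := x.toMul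
      set i : ℕ := (π m).1.toAdd.val with hi
      set j : ℕ := (π m).2.toAdd.val with hj
      have hNZ : NeZero p := ⟨(Fact.out : p.Prime).ne_zero⟩
      have h1 : π (m * (m₁ ^ i * m₂ ^ j)⁻¹) = 1 := by
        rw [map_mul, map_inv, map_mul, map_pow, map_pow, hm₁, hm₂]
        refine Prod.ext ?_ ?_
        · change (π m).1 * (Multiplicative.ofAdd (1 : ZMod p) ^ i * 1 ^ j)⁻¹ = 1
          rw [one_pow, mul_one, ← ofAdd_nsmul, nsmul_eq_mul, mul_one, hi, ZMod.natCast_zmod_val,
            ofAdd_toAdd, mul_inv_cancel]
        · change (π m).2 * (1 ^ i * Multiplicative.ofAdd (1 : ZMod p) ^ j)⁻¹ = 1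
          rw [one_pow, one_mul, ← ofAdd_nsmul, nsmul_eq_mul, mul_one, hj, ZMod.natCast_zmod_val,
            ofAdd_toAdd, mul_inv_cancel]
      have h2 := hker θ _ h1
      rw [ofMul_mul, ofMul_inv, ofMul_mul, ofMul_pow, ofMul_pow, map_add, map_neg, map_add,
        map_nsmul, map_nsmul, e1, e2, smul_zero, smul_zero, add_zero, neg_zero, add_zero] at h2
      exact h2
    have h3 := LinearMap.finrank_le_finrank_of_injective hΦ
    rw [Module.finrank_prod, Module.finrank_self] at h3
    exact h3
  have hF : IndCoc p π (CocB_F p) := by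
    refine ⟨fun i x y z => ?_, fun a ha => ?_⟩
    · simp only [map_mul]
      exact CocB_F_coc p i _ _ _
    · obtain ⟨u, hu⟩ := ha
      have hu' : ∀ x y : M, (a 0 * ((π x).1.toAdd * (π y).2.toAdd) +
          a 1 * CocB_carry p (π x).1.toAdd (π y).1.toAdd +
          a 2 * CocB_carry p (π x).2.toAdd (π y).2.toAdd) = u x + u y - u (x * y) := by
        intro x y
        have h1 : ∑ i, a i * CocB_F p i (π x) (π y) = u x + u y - u (x * y) := hu x y
        rw [Fin.sum_univ_three] at h1
        exact h1
      -- `u` on the kernel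
      have hker2 : ∀ n : M, π n = 1 → u n = 0 := by
        let v : Additive π.ker →+ ZMod p :=
          { toFun := fun n => u (n.toMul : π.ker)
            map_zero' := by
              have h1 := hu' 1 1
              rw [map_one, mul_one] at h1
              change u 1 = 0
              have h2 := (CocB_carry_zero p 0).1
              simp only [Prod.fst_one, Prod.snd_one, toAdd_one, h2, mul_zero, add_zero] at h1
              linear_combination -h1
            map_add' := fun n n' => by
              have h1 := hu' (n.toMul : π.ker) (n'.toMul : π.ker)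
              have h3 : π ((n.toMul : π.ker) : M) = 1 := (n.toMul : π.ker).2
              have h4 : π ((n'.toMul : π.ker) : M) = 1 := (n'.toMul : π.ker).2
              have h2 := (CocB_carry_zero p 0).1
              simp only [h3, h4, Prod.fst_one, Prod.snd_one, toAdd_one, h2, mul_zero,
                add_zero] at h1
              change u (((n.toMul : π.ker) : M) * ((n'.toMul : π.ker) : M)) = _
              linear_combination h1 }
        intro n hn
        have h1 := DFunLike.congr_fun (hN.add v) (Additive.ofMul (⟨n, hn⟩ : π.ker))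
        exact h1
      have hinv : ∀ x n : M, π n = 1 → u (x * n) = u x := by
        intro x n hn
        have h1 := hu' x n
        rw [hn] at h1
        simp only [Prod.fst_one, Prod.snd_one, toAdd_one, (CocB_carry_zero p _).1, mul_zero,
          add_zero, hker2 n hn] at h1
        linear_combination h1
      have hinv2 : ∀ x y : M, π x = π y → u x = u y := by
        intro x y hxy
        have h1 := hinv y (y⁻¹ * x) (by rw [map_mul, map_inv, hxy, inv_mul_cancel])
        rw [mul_inv_cancel_left] at h1
        exact h1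
      -- the commutator
      have h0 : a 0 = 0 := by
        have e1 := hu' m₁ m₂
        have e2 := hu' m₂ m₁
        have e3 : u (m₁ * m₂) = u (m₂ * m₁) := hinv2 _ _ (by rw [map_mul, map_mul, mul_comm])
        rw [hm₁, hm₂] at e1 e2
        simp only [toAdd_one, toAdd_ofAdd, (CocB_carry_zero p _).1, (CocB_carry_zero p _).2,
          mul_zero, add_zero, mul_one] at e1 e2
        linear_combination e1 - e2 - e3
      -- powers
      have hpow : ∀ (m : M) (f : ZMod p → ZMod p → ZMod p),
          (∀ k : ℕ, f ((k : ℕ) : ZMod p) 1 = u (m ^ k) + u m - u (m ^ (k + 1))) → π (m ^ p) = 1 →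
          ∑ k ∈ Finset.range p, f ((k : ℕ) : ZMod p) 1 = 0 := by
        intro m f hf hm
        have h1 : ∀ N : ℕ, ∑ k ∈ Finset.range N, f ((k : ℕ) : ZMod p) 1 =
            u 1 + N * u m - u (m ^ N) := by
          intro N
          induction N with
          | zero => simp
          | succ N ih =>
            rw [Finset.sum_range_succ, ih, hf]
            push_cast
            ring
        rw [h1, hker2 _ hm, hker2 1 (map_one π), ZMod.natCast_self]
        ring
      have hpw : ∀ x : Multiplicative (ZMod p) × Multiplicative (ZMod p), x ^ p = 1 := by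
        intro x
        refine Prod.ext ?_ ?_
        · change x.1 ^ p = 1
          rw [← ofAdd_toAdd x.1, ← ofAdd_nsmul, nsmul_eq_mul, ZMod.natCast_self, zero_mul,
            ofAdd_zero]
        · change x.2 ^ p = 1
          rw [← ofAdd_toAdd x.2, ← ofAdd_nsmul, nsmul_eq_mul, ZMod.natCast_self, zero_mul,
            ofAdd_zero]
      have h1 : a 1 = 0 := by
        have h2 := hpow m₁ (fun s t => a 1 * CocB_carry p s t) (by
          intro k
          have e1 := hu' (m₁ ^ k) m₁
          rw [map_pow, hm₁, ← pow_succ] at e1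
          have e2 : ((Multiplicative.ofAdd (1 : ZMod p), (1 : Multiplicative (ZMod p))) ^ k :
              Multiplicative (ZMod p) × Multiplicative (ZMod p)) =
              (Multiplicative.ofAdd ((k : ℕ) : ZMod p), 1) := by
            rw [Prod.pow_mk, one_pow, ← ofAdd_nsmul, nsmul_eq_mul, mul_one]
          rw [e2] at e1
          simp only [toAdd_one, toAdd_ofAdd, (CocB_carry_zero p _).1, mul_zero, add_zero,
            zero_add] at e1
          exact e1) (by rw [map_pow, hpw])
        rw [← Finset.mul_sum, CocB_carry_sum, mul_one] at h2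
        exact h2
      have h2 : a 2 = 0 := by
        have h2 := hpow m₂ (fun s t => a 2 * CocB_carry p s t) (by
          intro k
          have e1 := hu' (m₂ ^ k) m₂
          rw [map_pow, hm₂, ← pow_succ] at e1
          have e2 : (((1 : Multiplicative (ZMod p)), Multiplicative.ofAdd (1 : ZMod p)) ^ k :
              Multiplicative (ZMod p) × Multiplicative (ZMod p)) =
              (1, Multiplicative.ofAdd ((k : ℕ) : ZMod p)) := by
            rw [Prod.pow_mk, one_pow, ← ofAdd_nsmul, nsmul_eq_mul, mul_one]
          rw [e2] at e1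
          simp only [toAdd_one, toAdd_ofAdd, (CocB_carry_zero p _).1, (CocB_carry_zero p _).2,
            zero_mul, mul_zero, add_zero, zero_add] at e1
          exact e1) (by rw [map_pow, hpw])
        rw [← Finset.mul_sum, CocB_carry_sum, mul_one] at h2
        exact h2
      funext i
      fin_cases i
      · exact h0
      · exact h1
      · exact h2
  have h3 := hCB _ π 3 (CocB_F p) hF
  have h4 : max (max 1 (dp p M)) (2 * dp p M - 2) ≤ 2 := by
    refine max_le (max_le (by norm_num) hdp) ?_
    omega
  omega

end PDG
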