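import Mathlib

/-!
# MP_3f3beb_al: Tate's theorem on normal `p`-complements

If every homomorphism of a Sylow `p`-subgroup `P` of a finite group `Q` to `ℤ/p` extends to `Q`,
then `P` has a normal complement.
-/

set_option autoImplicit false

open scoped Classical

namespace PDG

variable {Q : Type} [Group Q]

/-- A central extension of exponent `p` which splits over a subgroup of index prime to `p`
splits. -/
theorem TateA_lift [Finite Q] (p : ℕ) [Fact p.Prime] (P : Subgroup Q) (hP : ¬ p ∣ P.index)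
    {A B : Type} [Group A] [Group B] [Finite A] (q : A →* B)
    (hq : Function.Surjective q) (hcen : ∀ z ∈ q.ker, ∀ a : A, z * a = a * z)
    (hexp : ∀ z ∈ q.ker, z ^ p = 1) (π : P →* A) (f : Q →* B) (hf : ∀ x : P, f x = q (π x)) :
    ∃ g : Q →* A, ∀ x, q (g x) = f x := by
  let instC : CommGroup q.ker := { (inferInstance : Group q.ker) with
    mul_comm := fun x y => Subtype.ext (hcen x x.2 y) }
  let E : Subgroup (Q × A) := (f.comp (MonoidHom.fst Q A)).eqLocus (q.comp (MonoidHom.snd Q A))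
  have hE : ∀ x : E, f x.1.1 = q x.1.2 := fun x => x.2
  let pr : E →* Q := (MonoidHom.fst Q A).comp E.subtype
  have hpr : Function.Surjective pr := by
    intro x
    obtain ⟨a, ha⟩ := hq (f x)
    exact ⟨⟨(x, a), ha.symm⟩, rfl⟩
  let PE : Subgroup E := P.comap pr
  let lam : PE →* q.ker :=
    { toFun := fun x => ⟨(π ⟨pr x.1, x.2⟩)⁻¹ * x.1.1.2, by
        rw [MonoidHom.mem_ker, map_mul, map_inv, ← hf]
        have h1 : f ((⟨pr x.1, x.2⟩ : P) : Q) = q x.1.1.2 := hE x.1
        rw [h1, inv_mul_cancel]⟩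
      map_one' := by
        apply Subtype.ext
        change (π 1)⁻¹ * 1 = 1
        rw [map_one, inv_one, one_mul]
      map_mul' := by
        intro x y
        apply Subtype.ext
        have h1 : (⟨pr (x * y : PE).1, (x * y).2⟩ : P) = ⟨pr x.1, x.2⟩ * ⟨pr y.1, y.2⟩ := rfl
        change (π ⟨pr (x * y : PE).1, (x * y).2⟩)⁻¹ * (x.1.1.2 * y.1.1.2) =
          ((π ⟨pr x.1, x.2⟩)⁻¹ * x.1.1.2) * ((π ⟨pr y.1, y.2⟩)⁻¹ * y.1.1.2)
        rw [h1, map_mul, mul_inv_rev]
        have h2 : (π ⟨pr x.1, x.2⟩)⁻¹ * x.1.1.2 ∈ q.ker := by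
          rw [MonoidHom.mem_ker, map_mul, map_inv, ← hf]
          have h1 : f ((⟨pr x.1, x.2⟩ : P) : Q) = q x.1.1.2 := hE x.1
          rw [h1, inv_mul_cancel]
        have h3 := hcen _ h2 (π ⟨pr y.1, y.2⟩)⁻¹
        rw [mul_assoc (π ⟨pr y.1, y.2⟩)⁻¹, ← mul_assoc (π ⟨pr x.1, x.2⟩)⁻¹, ← mul_assoc, ← h3,
          mul_assoc] }
  let V : E →* q.ker := MonoidHom.transfer lam
  have hidx : PE.index = P.index := Subgroup.index_comap_of_surjective P hpr
  have hV : ∀ (z : A) (hz : z ∈ q.ker) (x : E), x.1 = (1, z) → ((V x : q.ker) : A) = z ^ P.index := by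
    intro z hz x hx
    have hcomm : ∀ (k : ℕ) (g₀ : E), g₀⁻¹ * x ^ k * g₀ = x ^ k := by
      intro k g₀
      have h1 : x * g₀ = g₀ * x := by
        apply Subtype.ext
        change x.1 * g₀.1 = g₀.1 * x.1
        rw [hx]
        refine Prod.ext ?_ ?_
        · change 1 * g₀.1.1 = g₀.1.1 * 1
          rw [one_mul, mul_one]
        · exact hcen z hz _
      have h2 : Commute (x ^ k) g₀ := (show Commute x g₀ from h1).pow_left k
      rw [mul_assoc, h2.eq, inv_mul_cancel_left]
    have h3 := MonoidHom.transfer_eq_pow lam x (fun k g₀ _ => hcomm k g₀)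
    have h4 : V x = lam ⟨x ^ PE.index, MonoidHom.transfer_eq_pow_aux x (fun k g₀ _ => hcomm k g₀)⟩ := h3
    rw [h4]
    change (π ⟨pr (x ^ PE.index), _⟩)⁻¹ * ((x ^ PE.index : E)).1.2 = _
    have h5 : ((x ^ PE.index : E)).1 = (1, z ^ PE.index) := by
      change x.1 ^ PE.index = _
      rw [hx, Prod.pow_mk, one_pow]
    have h6 : ∀ h : pr (x ^ PE.index) ∈ P, (⟨pr (x ^ PE.index), h⟩ : P) = 1 := by
      intro h
      apply Subtype.ext
      change ((x ^ PE.index : E)).1.1 = 1
      rw [h5]
    rw [h6, map_one, inv_one, one_mul, h5, hidx]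
  have hcop : Nat.Coprime P.index p := by
    rw [Nat.coprime_comm]
    exact (Nat.Prime.coprime_iff_not_dvd (Fact.out : p.Prime)).2 hP
  obtain ⟨m, -, hm⟩ := Nat.exists_mul_mod_eq_one_of_coprime hcop (Fact.out : p.Prime).one_lt
  let F : E →* A :=
    { toFun := fun x => x.1.2 * (((V x : q.ker) : A) ^ m)⁻¹
      map_one' := by
        change (1 : A) * _ = 1
        rw [map_one]
        simp
      map_mul' := by
        intro x y
        change (x.1.2 * y.1.2) * _ = _
        rw [map_mul]
        have h1 : ∀ w ∈ q.ker, ∀ a : A, (w ^ m)⁻¹ * a = a * (w ^ m)⁻¹ := fun w hw a =>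
          hcen _ (inv_mem (pow_mem hw m)) a
        have h2 : (((V x * V y : q.ker) : A) ^ m)⁻¹ =
            (((V x : q.ker) : A) ^ m)⁻¹ * (((V y : q.ker) : A) ^ m)⁻¹ := by
          rw [Subgroup.coe_mul, (show Commute ((V x : q.ker) : A) ((V y : q.ker) : A) from
            hcen _ (V x).2 _).mul_pow, mul_inv_rev, h1 _ (V y).2]
        rw [h2]
        have h3 := h1 _ (V x).2 y.1.2
        rw [mul_assoc, ← mul_assoc y.1.2, ← h3]
        simp only [mul_assoc] }
  have hF : pr.ker ≤ F.ker := by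
    intro x hx
    rw [MonoidHom.mem_ker] at hx ⊢
    have hx1 : x.1.1 = 1 := hx
    have hz : x.1.2 ∈ q.ker := by
      rw [MonoidHom.mem_ker, ← hE x, hx1, map_one]
    change x.1.2 * (((V x : q.ker) : A) ^ m)⁻¹ = 1
    rw [hV x.1.2 hz x (Prod.ext hx1 rfl), ← pow_mul,
      pow_eq_pow_mod (P.index * m) (hexp _ hz), hm, pow_one, mul_inv_cancel]
  refine ⟨pr.liftOfRightInverse (Function.surjInv hpr) (Function.rightInverse_surjInv hpr) ⟨F, hF⟩,
    fun x => ?_⟩
  obtain ⟨y, rfl⟩ := hpr x
  have h1 := MonoidHom.liftOfRightInverse_comp_apply pr (Function.surjInv hpr)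
    (Function.rightInverse_surjInv hpr) ⟨F, hF⟩ y
  rw [h1]
  change q (y.1.2 * (((V y : q.ker) : A) ^ m)⁻¹) = f y.1.1
  rw [map_mul, map_inv, map_pow, MonoidHom.mem_ker.1 (V y).2, one_pow, inv_one, mul_one, hE]

/-- homomorphisms of the Sylow subgroup to finite `p`-groups extend -/
theorem TateA_ext [Finite Q] (p : ℕ) [Fact p.Prime] (P : Subgroup Q) (hP : ¬ p ∣ P.index)
    (hext : ∀ χ : P →* Multiplicative (ZMod p), ∃ χ' : Q →* Multiplicative (ZMod p),
      ∀ x : P, χ' x = χ x) (n : ℕ) :
    ∀ (A : Type) [Group A] [Finite A], Nat.card A ≤ n → IsPGroup p A → ∀ π : P →* A,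
      Function.Surjective π → ∃ g : Q →* A, ∀ x : P, g x = π x := by
  induction n with
  | zero =>
    intro A _ _ hA
    exact absurd hA (by have := Nat.card_pos (α := A); omega)
  | succ n ih =>
    intro A _ _ hA hAp π hπ
    by_cases hA1 : Nontrivial A
    · -- a central subgroup of order `p`
      have hc := hAp.center_nontrivial
      have hcp : IsPGroup p (Subgroup.center A) := hAp.to_subgroup _
      obtain ⟨k, hk, hcard⟩ := hcp.nontrivial_iff_card.1 hc
      obtain ⟨⟨z, hzc⟩, hz⟩ := exists_prime_orderOf_dvd_card' (G := Subgroup.center A) p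
        (by rw [hcard]; exact dvd_pow_self p hk.ne')
      have hzo : orderOf z = p := by
        rw [← hz]
        exact (Subgroup.orderOf_mk z hzc).symm
      let Z : Subgroup A := Subgroup.zpowers z
      have hZc : ∀ w ∈ Z, ∀ a : A, w * a = a * w := by
        intro w hw a
        have h1 : w ∈ Subgroup.center A := (Subgroup.zpowers_le.2 hzc : Z ≤ _) hw
        exact ((Subgroup.mem_center_iff.1 h1) a).symm
      have hZn : Z.Normal := ⟨fun w hw a => by rw [← hZc w hw a, mul_inv_cancel_right]; exact hw⟩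
      have hZcard : Nat.card Z = p := by
        rw [Nat.card_zpowers, hzo]
      let q : A →* A ⧸ Z := QuotientGroup.mk' Z
      have hqk : q.ker = Z := QuotientGroup.ker_mk' Z
      have hB : Nat.card (A ⧸ Z) ≤ n := by
        have h1 := Subgroup.card_eq_card_quotient_mul_card_subgroup Z
        rw [hZcard] at h1
        have h2 : 2 ≤ p := (Fact.out : p.Prime).two_le
        have h3 : 0 < Nat.card (A ⧸ Z) := Nat.card_pos
        nlinarith
      obtain ⟨f, hf⟩ := ih (A ⧸ Z) hB (hAp.to_quotient Z) (q.comp π)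
        ((QuotientGroup.mk'_surjective Z).comp hπ)
      obtain ⟨g₀, hg₀⟩ := TateA_lift p P hP q (QuotientGroup.mk'_surjective Z)
        (by rw [hqk]; exact hZc) (by
          rw [hqk]
          intro w hw
          have h1 := pow_card_eq_one' (x := (⟨w, hw⟩ : Z))
          rw [hZcard] at h1
          exact congrArg Subtype.val h1) π f hf
      let e : Z ≃* Multiplicative (ZMod p) := mulEquivOfPrimeCardEq (p := p) hZcard (by
        rw [Nat.card_congr Multiplicative.toAdd, Nat.card_zmod])
      have hc1 : ∀ x : P, (π x)⁻¹ * g₀ x ∈ Z := by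
        intro x
        rw [← hqk, MonoidHom.mem_ker, map_mul, map_inv, hg₀, hf]
        exact inv_mul_cancel _
      let c : P →* Z :=
        { toFun := fun x => ⟨(π x)⁻¹ * g₀ x, hc1 x⟩
          map_one' := by
            apply Subtype.ext
            change (π 1)⁻¹ * g₀ ((1 : P) : Q) = 1
            rw [map_one, Subgroup.coe_one, map_one, inv_one, one_mul]
          map_mul' := by
            intro x y
            apply Subtype.ext
            change (π (x * y))⁻¹ * g₀ ((x * y : P) : Q) = ((π x)⁻¹ * g₀ x) * ((π y)⁻¹ * g₀ y)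
            rw [map_mul, Subgroup.coe_mul, map_mul, mul_inv_rev]
            have h3 := hZc _ (hc1 x) (π y)⁻¹
            rw [mul_assoc (π y)⁻¹, ← mul_assoc (π x)⁻¹, ← mul_assoc, ← h3, mul_assoc] }
      obtain ⟨χ, hχ⟩ := hext (e.toMonoidHom.comp c)
      let d : Q →* Z := e.symm.toMonoidHom.comp χ
      have hd : ∀ x : P, d x = c x := by
        intro x
        change e.symm (χ x) = c x
        rw [hχ]
        exact e.symm_apply_apply _
      refine ⟨{ toFun := fun x => g₀ x * ((d x : Z) : A)⁻¹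
                map_one' := by simp
                map_mul' := ?_ }, fun x => ?_⟩
      · intro x y
        rw [map_mul, map_mul, Subgroup.coe_mul, mul_inv_rev]
        have h1 : ((d y : Z) : A)⁻¹ * ((d x : Z) : A)⁻¹ = ((d x : Z) : A)⁻¹ * ((d y : Z) : A)⁻¹ :=
          hZc _ (inv_mem (d y).2) _
        have h2 : ((d x : Z) : A)⁻¹ * g₀ y = g₀ y * ((d x : Z) : A)⁻¹ :=
          hZc _ (inv_mem (d x).2) _
        rw [h1, mul_assoc, ← mul_assoc (g₀ y), ← h2]
        simp only [mul_assoc]
      · change g₀ x * ((d x : Z) : A)⁻¹ = π x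
        rw [hd]
        change g₀ x * ((π x)⁻¹ * g₀ x)⁻¹ = π x
        rw [mul_inv_rev, inv_inv, mul_inv_cancel_left]
    · have hsub : Subsingleton A := not_nontrivial_iff_subsingleton.1 hA1
      exact ⟨1, fun x => Subsingleton.elim _ _⟩

/-- Tate's theorem -/
theorem TateA_tate [Finite Q] (p : ℕ) [Fact p.Prime] (P : Sylow p Q)
    (hext : ∀ χ : P →* Multiplicative (ZMod p), ∃ χ' : Q →* Multiplicative (ZMod p),
      ∀ x : P, χ' x = χ x) :
    ∃ N : Subgroup Q, N.Normal ∧ (∃ k : ℕ, N.index = p ^ k) ∧ ¬ p ∣ Nat.card N := by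
  have hP : ¬ p ∣ (P : Subgroup Q).index := P.not_dvd_index
  obtain ⟨g, hg⟩ := TateA_ext p (P : Subgroup Q) hP hext (Nat.card P) P le_rfl P.2 (MonoidHom.id P)
    Function.surjective_id
  have hsurj : Function.Surjective g := fun x => ⟨x, hg x⟩
  have hidx : g.ker.index = Nat.card P := by
    rw [Subgroup.index_ker, MonoidHom.range_eq_top.2 hsurj]
    exact Nat.card_congr Subgroup.topEquiv.toEquiv
  refine ⟨g.ker, inferInstance, ?_, ?_⟩
  · obtain ⟨k, hk⟩ := P.2.exists_card_eq
    exact ⟨k, by rw [hidx, hk]⟩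
  · have h1 : Nat.card g.ker * g.ker.index = Nat.card Q := Subgroup.card_mul_index _
    have h2 : Nat.card P * (P : Subgroup Q).index = Nat.card Q := Subgroup.card_mul_index _
    rw [hidx] at h1
    have h3 : Nat.card g.ker = (P : Subgroup Q).index := by
      have h4 : 0 < Nat.card P := Nat.card_pos
      have h5 : Nat.card P * Nat.card g.ker = Nat.card P * (P : Subgroup Q).index := by
        rw [h2, mul_comm]
        exact h1
      exact Nat.eq_of_mul_eq_mul_left h4 h5
    rw [h3]
    exact hP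

end PDG
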