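import Pool.Agent.W_3f3beb_h30.CocB
import Pool.Agent.W_3f3beb_h30.TateA
import Pool.Agent.W_3f3beb_h76.PnD

/-!
# MP_3f3beb_al: a subgroup of finite index without homomorphisms to `ℤ/p`
-/

set_option autoImplicit false

open scoped Classical

namespace PDG

variable {L : Type} [Group L]

theorem NoHom.congr {p : ℕ} {U U' : Type} [Group U] [Group U'] (E : U ≃* U') (h : NoHom p U) :
    NoHom p U' := by
  intro χ
  have h1 := h (χ.comp E.toMonoidHom)
  refine MonoidHom.ext fun x => ?_
  have h2 := DFunLike.congr_fun h1 (E.symm x)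
  simpa using h2

/-- a subgroup of finite index with maximal `dp` -/
theorem FinA_max (p : ℕ) [Fact p.Prime] {D : ℕ}
    (hr : ∀ H : Subgroup L, H.FiniteIndex → dp p H ≤ D) :
    ∃ W : Subgroup L, W.FiniteIndex ∧ ∀ H : Subgroup L, H.FiniteIndex → dp p H ≤ dp p W := by
  set P : ℕ → Prop := fun n => ∃ W : Subgroup L, W.FiniteIndex ∧ dp p W = n with hP
  have h1 : P (Nat.findGreatest P D) :=
    Nat.findGreatest_spec (m := dp p (⊤ : Subgroup L)) (hr ⊤ inferInstance)
      ⟨⊤, inferInstance, rfl⟩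
  obtain ⟨W, hW, hW'⟩ := h1
  refine ⟨W, hW, fun H hH => ?_⟩
  rw [hW']
  exact Nat.le_findGreatest (hr H hH) ⟨H, hH, rfl⟩

/-- a homomorphism to `ℤ/p` which is trivial on a subgroup of index prime to `p` is trivial -/
theorem FinA_triv (p : ℕ) [Fact p.Prime] {Q : Type} [Group Q] (P : Subgroup Q)
    (hP : ¬ p ∣ P.index) (θ : Q →* Multiplicative (ZMod p)) (h : P ≤ θ.ker) : θ = 1 := by
  by_contra hne
  have hp := (Fact.out : p.Prime)
  have h1 : θ.ker.index ∣ P.index := Subgroup.index_dvd_of_le h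
  rw [Subgroup.index_ker] at h1
  have h2 : Nat.card θ.range ∣ p := by
    have h3 := Subgroup.card_subgroup_dvd_card θ.range
    have h4 : Nat.card (Multiplicative (ZMod p)) = p := Nat.card_zmod p
    rwa [h4] at h3
  rcases (Nat.dvd_prime hp).1 h2 with h3 | h3
  · refine hne ?_
    have h4 : θ.range = ⊥ := Subgroup.card_eq_one.1 h3
    exact MonoidHom.range_eq_bot_iff.1 h4
  · rw [h3] at h1
    exact hP h1

/-- homomorphisms to `ℤ/p` extend from Sylow subgroups when `dp` is maximal -/
theorem FinA_ext (p : ℕ) [Fact p.Prime] {W : Type} [Group W] (hW : Group.FG W)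
    (hmax : ∀ U : Subgroup W, U.FiniteIndex → dp p U ≤ dp p W)
    (N : Subgroup W) [N.Normal] [N.FiniteIndex]
    (hN : ∀ θ : W →* Multiplicative (ZMod p), N ≤ θ.ker)
    (P : Sylow p (W ⧸ N)) (χ : P →* Multiplicative (ZMod p)) :
    ∃ χ' : W ⧸ N →* Multiplicative (ZMod p), ∀ x : P, χ' x = χ x := by
  have hQfin : Finite (W ⧸ N) := inferInstance
  have hQfg : Group.FG (W ⧸ N) := inferInstance
  have hPfg : Group.FG P := inferInstance
  have hfdW := hom_finite p hW
  have hfdQ := hom_finite p hQfg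
  have hfdP := hom_finite p hPfg
  have h1 : dp p W ≤ dp p (W ⧸ N) := by
    refine LinearMap.finrank_le_finrank_of_surjective (f := DpA_comp p (QuotientGroup.mk' N)) ?_
    intro θ
    let θm : W →* Multiplicative (ZMod p) := AddMonoidHom.toMultiplicativeRight θ
    refine ⟨AddMonoidHom.toMultiplicativeRight.symm
      (QuotientGroup.lift N θm (fun x hx => hN θm hx)), ?_⟩
    exact AddMonoidHom.ext fun x => rfl
  have hinj : Function.Injective (DpA_comp p (P : Subgroup (W ⧸ N)).subtype) := by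
    rw [← LinearMap.ker_eq_bot, LinearMap.ker_eq_bot']
    intro θ hθ
    have h2 := FinA_triv p (P : Subgroup (W ⧸ N)) P.not_dvd_index
      (AddMonoidHom.toMultiplicativeRight θ) (fun x hx => by
        have h3 := DFunLike.congr_fun hθ (Additive.ofMul (⟨x, hx⟩ : P))
        exact congrArg Multiplicative.ofAdd h3)
    refine AddMonoidHom.ext fun x => ?_
    have h3 := DFunLike.congr_fun h2 x.toMul
    exact congrArg Multiplicative.toAdd h3
  have h2 : dp p (W ⧸ N) ≤ dp p P := LinearMap.finrank_le_finrank_of_injective hinj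
  have hUf : ((P : Subgroup (W ⧸ N)).comap (QuotientGroup.mk' N)).FiniteIndex := by
    refine ⟨?_⟩
    rw [Subgroup.index_comap_of_surjective _ (QuotientGroup.mk'_surjective N)]
    exact Subgroup.FiniteIndex.index_ne_zero
  have hUfg : Group.FG ((P : Subgroup (W ⧸ N)).comap (QuotientGroup.mk' N)) := by
    have := hW
    infer_instance
  have h3 : dp p P ≤ dp p ((P : Subgroup (W ⧸ N)).comap (QuotientGroup.mk' N)) :=
    dp_le_of_surjective p hUfg
      ((QuotientGroup.mk' N).subgroupComap (P : Subgroup (W ⧸ N)))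
      (MonoidHom.subgroupComap_surjective_of_surjective _ _ (QuotientGroup.mk'_surjective N))
  have h4 := hmax _ hUf
  have heq : Module.finrank (ZMod p) (Additive (W ⧸ N) →+ ZMod p) =
      Module.finrank (ZMod p) (Additive P →+ ZMod p) := by
    change dp p (W ⧸ N) = dp p P
    omega
  obtain ⟨θ, hθ⟩ := (LinearMap.injective_iff_surjective_of_finrank_eq_finrank heq).1 hinj
    (AddMonoidHom.toMultiplicativeRight.symm χ)
  refine ⟨AddMonoidHom.toMultiplicativeRight θ, fun x => ?_⟩
  exact congrArg Multiplicative.ofAdd (DFunLike.congr_fun hθ (Additive.ofMul x))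

/-- **A subgroup of finite index whose subgroups of finite index have no homomorphisms to `ℤ/p`.** -/
theorem FinA_T (p : ℕ) [Fact p.Prime] (hL : Group.FG L) {D : ℕ}
    (hr : ∀ H : Subgroup L, H.FiniteIndex → dp p H ≤ D)
    (hE : ∀ H : Subgroup L, H.FiniteIndex → {N : Subgroup H | PN p N}.Finite) :
    ∃ T : Subgroup L, T.FiniteIndex ∧ ∀ U : Subgroup L, U ≤ T → U.FiniteIndex → NoHom p U := by
  have hp := (Fact.out : p.Prime)
  have hZfin : Finite (Multiplicative (ZMod p)) := by
    have : NeZero p := ⟨hp.ne_zero⟩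
    exact inferInstanceAs (Finite (ZMod p))
  obtain ⟨W, hW, hmax⟩ := FinA_max p hr
  have hWfg : Group.FG W := by
    have := hL
    infer_instance
  set T₀ : Subgroup W := sInf {N : Subgroup W | PN p N} with hT₀def
  have hT₀ : PN p T₀ := PnD_sInf p _ (hE W hW) (fun M hM => hM)
  have hT₀f : T₀.FiniteIndex := PN.finiteIndex p hT₀
  refine ⟨T₀.map W.subtype, DpA_fin hW T₀ hT₀f, ?_⟩
  intro U hUT hU χ
  have hkf : χ.ker.FiniteIndex := Subgroup.finiteIndex_ker χ
  set K : Subgroup L := χ.ker.map U.subtype with hK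
  have hKf : K.FiniteIndex := DpA_fin hU χ.ker hkf
  have hfinHom : Finite (W →* Multiplicative (ZMod p)) := SgA_aux_hom hWfg _
  have hΦf : (⨅ θ : W →* Multiplicative (ZMod p), θ.ker).FiniteIndex :=
    Subgroup.finiteIndex_iInf fun θ => Subgroup.finiteIndex_ker θ
  have hΦn : (⨅ θ : W →* Multiplicative (ZMod p), θ.ker).Normal :=
    Subgroup.normal_iInf_normal fun θ => inferInstance
  set N : Subgroup W := (K.subgroupOf W).normalCore ⊓ ⨅ θ : W →* Multiplicative (ZMod p), θ.ker
    with hN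
  have hNn : N.Normal := by
    rw [hN]
    infer_instance
  have hNf : N.FiniteIndex := by
    rw [hN]
    infer_instance
  obtain ⟨P⟩ : Nonempty (Sylow p (W ⧸ N)) := inferInstance
  have hmaxW : ∀ U : Subgroup W, U.FiniteIndex → dp p U ≤ dp p W := by
    intro V hV
    rw [dp_congr p (V.equivMapOfInjective W.subtype W.subtype_injective)]
    exact hmax _ (DpA_fin hW V hV)
  obtain ⟨M, hMn, ⟨k, hk⟩, hMp⟩ := TateA_tate p P (fun χ =>
    FinA_ext p hWfg hmaxW N (fun θ => inf_le_right.trans (iInf_le _ θ)) P χ)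
  have hM' : PN p (M.comap (QuotientGroup.mk' N)) := by
    have := hMn
    refine ⟨inferInstance, k, ?_⟩
    rw [Subgroup.index_comap_of_surjective _ (QuotientGroup.mk'_surjective N), hk]
  have hTM : T₀ ≤ M.comap (QuotientGroup.mk' N) := sInf_le hM'
  refine MonoidHom.ext fun u => ?_
  obtain ⟨w, hwT, hwu⟩ := hUT u.2
  have hwM : QuotientGroup.mk' N w ∈ M := hTM hwT
  have hpow : (QuotientGroup.mk' N w) ^ Nat.card M = 1 := by
    have h1 := pow_card_eq_one' (x := (⟨_, hwM⟩ : M))
    exact congrArg Subtype.val h1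
  have hwN : w ^ Nat.card M ∈ N := by
    rw [← map_pow] at hpow
    exact (QuotientGroup.eq_one_iff _).1 hpow
  have hwK : ((w ^ Nat.card M : W) : L) ∈ K :=
    Subgroup.mem_subgroupOf.1 (Subgroup.normalCore_le _ (inf_le_left (a := (K.subgroupOf W).normalCore)
      hwN))
  obtain ⟨v, hv, hvw⟩ := hwK
  have hvu : v = u ^ Nat.card M := by
    refine Subtype.ext ?_
    have h1 : (v : L) = ((w ^ Nat.card M : W) : L) := hvw
    have h2 : (w : L) = (u : L) := hwu
    rw [h1, Subgroup.coe_pow, Subgroup.coe_pow, h2]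
  have h1 : χ u ^ Nat.card M = 1 := by
    rw [← map_pow, ← hvu]
    exact hv
  have h2 : χ u ^ p = 1 := by
    have h3 : Nat.card (Multiplicative (ZMod p)) = p := Nat.card_zmod p
    have h4 := pow_card_eq_one' (x := χ u)
    rwa [h3] at h4
  have h3 : orderOf (χ u) ∣ Nat.gcd p (Nat.card M) :=
    Nat.dvd_gcd (orderOf_dvd_of_pow_eq_one h2) (orderOf_dvd_of_pow_eq_one h1)
  rw [(Nat.Prime.coprime_iff_not_dvd hp).2 hMp, Nat.dvd_one, orderOf_eq_one_iff] at h3
  exact h3

end PDG
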