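import Mathlib

/-!
# MP_3f3beb_al: noncyclic `p`-groups for odd `p`

A finite noncyclic `p`-group, `p` odd, contains `ℤ/p × ℤ/p`.
-/

set_option autoImplicit false

open scoped Classical

namespace PDG

/-- the formula for powers in a group of class two -/
theorem PgrA_pow {R : Type} [Group R] (b x c : R) (h : x * b = b * x * c) (hb : c * b = b * c)
    (hx : c * x = x * c) : ∀ k : ℕ, (b * x) ^ k = b ^ k * x ^ k * c ^ (k * (k - 1) / 2) := by
  have h1 : ∀ k : ℕ, x ^ k * b = b * x ^ k * c ^ k := by
    intro k
    induction k with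
    | zero => simp
    | succ k ih =>
      have hx' : Commute (c ^ k) x := (show Commute c x from hx).pow_left k
      calc x ^ (k + 1) * b = x * (x ^ k * b) := by rw [pow_succ', mul_assoc]
        _ = (x * b) * x ^ k * c ^ k := by rw [ih]; simp only [mul_assoc]
        _ = b * x * (c * x ^ k) * c ^ k := by rw [h]; simp only [mul_assoc]
        _ = b * x * (x ^ k * c) * c ^ k := by
          rw [((show Commute c x from hx).pow_right k).eq]
        _ = b * x ^ (k + 1) * c ^ (k + 1) := by
          rw [pow_succ' x, pow_succ' c]
          simp only [mul_assoc]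
  intro k
  induction k with
  | zero => simp
  | succ k ih =>
    have e1 : (k + 1) * (k + 1 - 1) / 2 = k + k * (k - 1) / 2 := by
      have h2 : (k + 1) * (k + 1 - 1) = k * (k - 1) + k * 2 := by
        cases k with
        | zero => rfl
        | succ k => simp only [Nat.add_sub_cancel]; ring
      rw [h2, Nat.add_mul_div_right _ _ (by norm_num), add_comm]
    have hb' : Commute (c ^ (k * (k - 1) / 2)) b := (show Commute c b from hb).pow_left _
    have hx' : Commute (c ^ (k * (k - 1) / 2)) x := (show Commute c x from hx).pow_left _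
    have hx2 : Commute (c ^ k) x := (show Commute c x from hx).pow_left _
    calc (b * x) ^ (k + 1) = b ^ k * x ^ k * (c ^ (k * (k - 1) / 2) * b) * x := by
          rw [pow_succ, ih]; simp only [mul_assoc]
      _ = b ^ k * (x ^ k * b) * (c ^ (k * (k - 1) / 2) * x) := by
          rw [hb'.eq]; simp only [mul_assoc]
      _ = b ^ k * b * x ^ k * (c ^ k * x) * c ^ (k * (k - 1) / 2) := by
          rw [h1, hx'.eq]; simp only [mul_assoc]
      _ = b ^ (k + 1) * x ^ (k + 1) * c ^ ((k + 1) * (k + 1 - 1) / 2) := by
          rw [hx2.eq, e1, pow_add c, pow_succ b, pow_succ x]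
          simp only [mul_assoc]

theorem PgrA_exists (p : ℕ) [Fact p.Prime] (hp : p ≠ 2) (n : ℕ) : ∀ (R : Type) [Group R] [Finite R],
    Nat.card R ≤ n → IsPGroup p R → ¬ IsCyclic R →
    ∃ y z : R, y ^ p = 1 ∧ z ^ p = 1 ∧ z ≠ 1 ∧ y * z = z * y ∧ y ∉ Subgroup.zpowers z := by
  induction n with
  | zero =>
    intro R _ _ hR
    exact absurd hR (by have := Nat.card_pos (α := R); omega)
  | succ n ih =>
    intro R _ _ hR hRp hRc
    have hpp : p.Prime := Fact.out
    by_cases hsub : ∃ H : Subgroup R, H ≠ ⊤ ∧ ¬ IsCyclic H
    · obtain ⟨H, hH, hHc⟩ := hsub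
      have hlt : Nat.card H < Nat.card R := by
        rcases lt_or_eq_of_le (Subgroup.card_le_card_group H) with h | h
        · exact h
        · exact absurd (Subgroup.eq_top_of_card_eq H h) hH
      obtain ⟨y, z, h1, h2, h3, h4, h5⟩ := ih H (by omega) (hRp.to_subgroup H) hHc
      refine ⟨y, z, congrArg Subtype.val h1, congrArg Subtype.val h2, fun h => h3 (Subtype.ext h),
        congrArg Subtype.val h4, ?_⟩
      rintro ⟨k, hk⟩
      exact h5 ⟨k, Subtype.ext hk⟩
    · push Not at hsub
      obtain ⟨N, hN⟩ := hRp.exists_card_eq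
      have hN0 : N ≠ 0 := by
        rintro rfl
        rw [pow_zero] at hN
        have : Subsingleton R := (Nat.card_eq_one_iff_unique.1 hN).1
        exact hRc inferInstance
      obtain ⟨m, rfl⟩ := Nat.exists_eq_succ_of_ne_zero hN0
      have hm0 : m ≠ 0 := by
        rintro rfl
        exact hRc (isCyclic_of_prime_card (p := p) (by rw [hN]; exact pow_one p))
      -- every element is in a cyclic subgroup of index `p`
      have hmax : ∀ x : R, ∃ A : Subgroup R, x ∈ A ∧ Nat.card A = p ^ m ∧ A.index = p ∧
          A.Normal ∧ IsCyclic A := by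
        intro x
        obtain ⟨k, hk⟩ := (hRp.to_subgroup (Subgroup.zpowers x)).exists_card_eq
        have hkm : k ≤ m := by
          by_contra hcon
          have h1 : Nat.card (Subgroup.zpowers x) ∣ Nat.card R := Subgroup.card_subgroup_dvd_card _
          rw [hk, hN, Nat.pow_dvd_pow_iff_le_right hpp.one_lt] at h1
          have h2 : k = m + 1 := by
            have : m.succ = m + 1 := rfl
            omega
          refine hRc (isCyclic_of_orderOf_eq_card x ?_)
          rw [← Nat.card_zpowers, hk, hN, h2]
        obtain ⟨A, hA, hxA⟩ := Sylow.exists_subgroup_card_pow_prime_le p (n := k) (m := m)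
          (by rw [hN]; exact pow_dvd_pow p (Nat.le_succ m)) (Subgroup.zpowers x) hk hkm
        have hidx : A.index = p := by
          have h1 := Subgroup.card_mul_index A
          rw [hA, hN, Nat.pow_succ] at h1
          exact Nat.eq_of_mul_eq_mul_left (pow_pos hpp.pos m) h1
        refine ⟨A, hxA (Subgroup.mem_zpowers x), hA, hidx, ?_, hsub A ?_⟩
        · apply Subgroup.normal_of_index_eq_minFac_card
          rw [hidx, hN, hpp.pow_minFac hN0]
        · rintro rfl
          rw [Subgroup.index_top] at hidx
          exact hpp.one_lt.ne hidx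
      obtain ⟨A, -, hA, hAi, hAn, hAc⟩ := hmax 1
      obtain ⟨⟨a, haA⟩, ha⟩ := hAc.exists_generator
      have haz : ∀ x ∈ A, ∃ k : ℤ, a ^ k = x := by
        intro x hx
        obtain ⟨k, hk⟩ := ha ⟨x, hx⟩
        exact ⟨k, congrArg Subtype.val hk⟩
      have hAtop : ∃ b₀ : R, b₀ ∉ A := by
        by_contra hcon
        push Not at hcon
        have h1 : A = ⊤ := by
          rw [eq_top_iff]
          exact fun x _ => hcon x
        rw [h1, Subgroup.index_top] at hAi
        exact hpp.one_lt.ne hAi
      obtain ⟨b₀, hb₀⟩ := hAtop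
      obtain ⟨B, hb₀B, hB, hBi, hBn, hBc⟩ := hmax b₀
      obtain ⟨⟨b, hbB⟩, hb⟩ := hBc.exists_generator
      have hbz : ∀ x ∈ B, ∃ k : ℤ, b ^ k = x := by
        intro x hx
        obtain ⟨k, hk⟩ := hb ⟨x, hx⟩
        exact ⟨k, congrArg Subtype.val hk⟩
      have hbA : b ∉ A := by
        intro h
        obtain ⟨k, hk⟩ := hbz b₀ hb₀B
        exact hb₀ (hk ▸ A.zpow_mem h k)
      have hAcomm : ∀ x ∈ A, ∀ y ∈ A, x * y = y * x := by
        intro x hx y hy
        obtain ⟨k, rfl⟩ := haz x hx
        obtain ⟨l, rfl⟩ := haz y hy
        exact ((Commute.refl a).zpow_zpow k l).eq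
      have hBcomm : ∀ x ∈ B, ∀ y ∈ B, x * y = y * x := by
        intro x hx y hy
        obtain ⟨k, rfl⟩ := hbz x hx
        obtain ⟨l, rfl⟩ := hbz y hy
        exact ((Commute.refl b).zpow_zpow k l).eq
      have hApow : ∀ x : R, x ^ p ∈ A := by
        intro x
        have := Subgroup.pow_index_mem A x
        rwa [hAi] at this
      have hBpow : ∀ x : R, x ^ p ∈ B := by
        intro x
        have := Subgroup.pow_index_mem B x
        rwa [hBi] at this
      -- `b ^ p` is a `p`-th power of an element of `A`
      obtain ⟨i, hi⟩ := haz _ (hApow b)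
      have hpi : (p : ℤ) ∣ i := by
        by_contra hcon
        -- then `a` is a power of `b ^ p`
        have hcop : IsCoprime (i : ℤ) ((p ^ m : ℕ) : ℤ) := by
          rw [Int.isCoprime_iff_gcd_eq_one]
          have h1 : Nat.Coprime i.natAbs (p ^ m) := by
            apply Nat.Coprime.pow_right
            rw [Nat.coprime_comm, Nat.Prime.coprime_iff_not_dvd hpp]
            intro h
            exact hcon (Int.natCast_dvd.2 h)
          rw [Int.gcd, Int.natAbs_natCast]
          exact h1
        obtain ⟨u, v, huv⟩ := hcop
        have hapm : a ^ ((p ^ m : ℕ) : ℤ) = 1 := by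
          rw [zpow_natCast, ← hA]
          have := pow_card_eq_one' (x := (⟨a, haA⟩ : A))
          exact congrArg Subtype.val this
        have haB : a ∈ B := by
          have h1 : a = (b ^ p) ^ u := by
            calc a = a ^ (u * i + v * ((p ^ m : ℕ) : ℤ)) := by rw [huv, zpow_one]
              _ = (a ^ i) ^ u * (a ^ ((p ^ m : ℕ) : ℤ)) ^ v := by
                rw [zpow_add, ← zpow_mul, ← zpow_mul, mul_comm u, mul_comm v]
              _ = (b ^ p) ^ u := by rw [hapm, one_zpow, mul_one, hi]
          rw [h1]
          exact B.zpow_mem (B.pow_mem hbB p) u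
        have hAB : A ≤ B := by
          intro x hx
          obtain ⟨k, rfl⟩ := haz x hx
          exact B.zpow_mem haB k
        have hAB' : A = B := Subgroup.eq_of_le_of_card_ge hAB (by rw [hA, hB])
        exact hb₀ (hAB' ▸ hb₀B)
      obtain ⟨j, rfl⟩ := hpi
      -- the element `y = b a ^ (-j)` outside `A`
      set x : R := a ^ (-j) with hx
      have hxA : x ∈ A := A.zpow_mem haA _
      set c : R := x⁻¹ * b⁻¹ * x * b with hc
      have hcA : c ∈ A := by
        have h1 : b⁻¹ * x * b ∈ A := by
          have := hAn.conj_mem x hxA b⁻¹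
          rwa [inv_inv] at this
        have h2 : c = x⁻¹ * (b⁻¹ * x * b) := by rw [hc]; simp only [mul_assoc]
        rw [h2]
        exact A.mul_mem (A.inv_mem hxA) h1
      have hcB : c ∈ B := by
        have h1 : x⁻¹ * b⁻¹ * x ∈ B := by
          have := hBn.conj_mem b⁻¹ (B.inv_mem hbB) x⁻¹
          rwa [inv_inv] at this
        exact B.mul_mem h1 hbB
      have h1 : x * b = b * x * c := by
        rw [hc]
        group
      have hcb : c * b = b * c := hBcomm c hcB b hbB
      have hcx : c * x = x * c := hAcomm c hcA x hxA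
      have hcp : c ^ p = 1 := by
        have hk : ∀ k : ℕ, x ^ k * b = b * x ^ k * c ^ k := by
          intro k
          induction k with
          | zero => simp
          | succ k ihk =>
            have hx' : Commute (c ^ k) x := (show Commute c x from hcx).pow_left k
            calc x ^ (k + 1) * b = x * (x ^ k * b) := by rw [pow_succ', mul_assoc]
              _ = (x * b) * x ^ k * c ^ k := by rw [ihk]; simp only [mul_assoc]
              _ = b * x * (c * x ^ k) * c ^ k := by rw [h1]; simp only [mul_assoc]
              _ = b * x * (x ^ k * c) * c ^ k := by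
                rw [((show Commute c x from hcx).pow_right k).eq]
              _ = b * x ^ (k + 1) * c ^ (k + 1) := by
                rw [pow_succ' x, pow_succ' c]
                simp only [mul_assoc]
        have h2 := hk p
        rw [hBcomm _ (hBpow x) b hbB] at h2
        exact (mul_eq_left.1 h2.symm)
      have hy : (b * x) ^ p = 1 := by
        rw [PgrA_pow b x c h1 hcb hcx p]
        have h2 : p ∣ p * (p - 1) / 2 := by
          obtain ⟨t, ht⟩ := hpp.odd_of_ne_two hp
          have h3 : p * (p - 1) / 2 = p * t := by
            have h4 : p * (p - 1) = p * t * 2 := by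
              have h5 : p - 1 = 2 * t := by omega
              rw [h5]
              ring
            rw [h4, Nat.mul_div_cancel _ (by norm_num)]
          rw [h3]
          exact dvd_mul_right p t
        obtain ⟨s, hs⟩ := h2
        rw [hs, pow_mul, hcp, one_pow, mul_one, ← hi, hx, ← zpow_natCast, ← zpow_mul, ← zpow_add]
        have h3 : (p : ℤ) * j + -j * (p : ℤ) = 0 := by ring
        rw [h3, zpow_zero]
      have hyA : b * x ∉ A := by
        intro h
        exact hbA ((A.mul_mem_cancel_right hxA).1 h)
      -- a central element of order `p`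
      have hnt : Nontrivial R := by
        rw [← Finite.one_lt_card_iff_nontrivial, hN]
        exact Nat.one_lt_pow hN0 hpp.one_lt
      have hcn := hRp.center_nontrivial
      obtain ⟨k, hk, hcard⟩ := (hRp.to_subgroup (Subgroup.center R)).nontrivial_iff_card.1 hcn
      obtain ⟨⟨z, hzc⟩, hz⟩ := exists_prime_orderOf_dvd_card' (G := Subgroup.center R) p
        (by rw [hcard]; exact dvd_pow_self p hk.ne')
      have hzo : orderOf z = p := by
        rw [← hz]
        exact (Subgroup.orderOf_mk z hzc).symm
      have hz1 : z ≠ 1 := by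
        rintro rfl
        rw [orderOf_one] at hzo
        exact hpp.one_lt.ne hzo
      have hzp : z ^ p = 1 := by
        rw [← hzo]
        exact pow_orderOf_eq_one z
      have hzcomm : ∀ r : R, r * z = z * r := fun r => Subgroup.mem_center_iff.1 hzc r
      by_cases hzA : z ∈ A
      · refine ⟨b * x, z, hy, hzp, hz1, hzcomm _, fun h => hyA ?_⟩
        exact (Subgroup.zpowers_le.2 hzA : Subgroup.zpowers z ≤ A) h
      · -- an element of order `p` in `A`
        obtain ⟨⟨w, hwA⟩, hw⟩ := exists_prime_orderOf_dvd_card' (G := A) p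
          (by rw [hA]; exact dvd_pow_self p hm0)
        have hwo : orderOf w = p := by
          rw [← hw]
          exact (Subgroup.orderOf_mk w hwA).symm
        have hwp : w ^ p = 1 := by
          rw [← hwo]
          exact pow_orderOf_eq_one w
        refine ⟨w, z, hwp, hzp, hz1, hzcomm _, fun h => hzA ?_⟩
        have h2 : Subgroup.zpowers w ≤ Subgroup.zpowers z := Subgroup.zpowers_le.2 h
        have h3 : Subgroup.zpowers w = Subgroup.zpowers z :=
          Subgroup.eq_of_le_of_card_ge h2 (by rw [Nat.card_zpowers, Nat.card_zpowers, hzo, hwo])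
        have h4 : z ∈ Subgroup.zpowers w := h3 ▸ Subgroup.mem_zpowers z
        exact (Subgroup.zpowers_le.2 hwA : Subgroup.zpowers w ≤ A) h4

end PDG
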