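import Pool.Agent.W_3f3beb_h30.FinA
import Pool.Agent.W_3f3beb_h30.PgrA
import Pool.Agent.W_3f3beb_h76.MainA

/-!
# MP_3f3beb_al: groups with finite abelianizations
-/

set_option autoImplicit false

open scoped Classical commutatorElement

namespace PDG

variable {L : Type} [Group L]

/-- every infinite finitely generated subgroup has a proper subgroup of finite index -/
def LocGr (L : Type) [Group L] : Prop :=
  ∀ M : Subgroup L, M.FG → Infinite M → ∃ N : Subgroup L, N < M ∧ N.relIndex M ≠ 0

theorem LocGr.of_injective {L' : Type} [Group L'] (h : LocGr L) (f : L' →* L)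
    (hf : Function.Injective f) : LocGr L' := by
  intro M hM hinf
  have h1 : (M.map f).FG := by
    have h0 : Group.FG M := (Group.fg_iff_subgroup_fg M).2 hM
    exact (Group.fg_iff_subgroup_fg _).1 (Group.fg_of_surjective
      (f := (M.equivMapOfInjective f hf).toMonoidHom) (M.equivMapOfInjective f hf).surjective)
  have h2 : Infinite (M.map f) := (M.equivMapOfInjective f hf).toEquiv.infinite_iff.1 hinf
  obtain ⟨N, hN, hN'⟩ := h _ h1 h2
  have h3 : (N.comap f).map f = N :=
    Subgroup.map_comap_eq_self (hN.le.trans (by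
      rintro _ ⟨x, _, rfl⟩
      exact ⟨x, rfl⟩))
  refine ⟨N.comap f, lt_of_le_of_ne ?_ ?_, ?_⟩
  · intro x hx
    obtain ⟨y, hy, hyx⟩ := hN.le hx
    rwa [← hf hyx]
  · intro heq
    rw [heq] at h3
    exact hN.ne h3.symm
  · rw [Subgroup.relIndex_comap]
    exact hN'

theorem FinB_sub (p : ℕ) {T : Subgroup L} (hT : T.FiniteIndex) {S : Subgroup L}
    (hS : ∀ U : Subgroup L, U ≤ S → U.FiniteIndex → NoHom p U) (V : Subgroup T)
    (hV : V.FiniteIndex) (hVS : V.map T.subtype ≤ S) : NoHom p V :=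
  (hS (V.map T.subtype) hVS (DpA_fin hT V hV)).congr
    (V.equivMapOfInjective T.subtype T.subtype_injective).symm

/-- the finite quotients of a group without homomorphisms to `ℤ/p` have order prime to `p` -/
theorem FinB_nodiv (p : ℕ) [Fact p.Prime] {T : Subgroup L} (hT : T.FiniteIndex)
    (hno : ∀ U : Subgroup L, U ≤ T → U.FiniteIndex → NoHom p U) (N : Subgroup T) [N.Normal]
    [N.FiniteIndex] : ¬ p ∣ Nat.card (T ⧸ N) := by
  intro hdvd
  have hfin : Finite (T ⧸ N) := inferInstance
  obtain ⟨x, hx⟩ := exists_prime_orderOf_dvd_card' p hdvd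
  have hA : Nat.card (Subgroup.zpowers x) = p := by
    rw [Nat.card_zpowers, hx]
  have hB : Nat.card (Multiplicative (ZMod p)) = p := Nat.card_zmod p
  set V : Subgroup T := (Subgroup.zpowers x).comap (QuotientGroup.mk' N) with hV
  have hVf : V.FiniteIndex := by
    refine ⟨?_⟩
    rw [hV, Subgroup.index_comap_of_surjective _ (QuotientGroup.mk'_surjective N)]
    exact Subgroup.FiniteIndex.index_ne_zero
  have hVn : NoHom p V := FinB_sub p hT hno V hVf (Subgroup.map_subtype_le V)
  let e : Subgroup.zpowers x ≃* Multiplicative (ZMod p) := mulEquivOfPrimeCardEq hA hB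
  have h1 := hVn (e.toMonoidHom.comp ((QuotientGroup.mk' N).subgroupComap (Subgroup.zpowers x)))
  have h2 : Function.Surjective
      (e.toMonoidHom.comp ((QuotientGroup.mk' N).subgroupComap (Subgroup.zpowers x))) :=
    e.surjective.comp
      (MonoidHom.subgroupComap_surjective_of_surjective _ _ (QuotientGroup.mk'_surjective N))
  obtain ⟨v, hv⟩ := h2 (Multiplicative.ofAdd 1)
  rw [h1, MonoidHom.one_apply] at hv
  have h3 : (0 : ZMod p) = 1 := congrArg Multiplicative.toAdd hv
  exact zero_ne_one h3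

/-- two commuting elements of order `q` -/
theorem FinB_psi (q : ℕ) [Fact q.Prime] {R : Type} [Group R] (y z : R) (hy : y ^ q = 1)
    (hz : z ^ q = 1) (hz1 : z ≠ 1) (hyz : y * z = z * y) (hn : y ∉ Subgroup.zpowers z) :
    ∃ ψ : Multiplicative (ZMod q) × Multiplicative (ZMod q) →* R, Function.Injective ψ := by
  have hq := (Fact.out : q.Prime)
  have hne : NeZero q := ⟨hq.ne_zero⟩
  have hadd : ∀ (x : R), x ^ q = 1 → ∀ a b : ZMod q,
      x ^ (a + b).val = x ^ a.val * x ^ b.val := by
    intro x hx a b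
    rw [ZMod.val_add, ← pow_eq_pow_mod _ hx, pow_add]
  have hinv : ∀ (x : R), x ^ q = 1 → ∀ a : ZMod q, a ≠ 0 → (x ^ a.val) ^ (a⁻¹).val = x := by
    intro x hx a ha
    rw [← pow_mul, pow_eq_pow_mod _ hx, ← ZMod.val_mul, mul_inv_cancel₀ ha]
    have : Fact (1 < q) := ⟨hq.one_lt⟩
    rw [ZMod.val_one, pow_one]
  have hcomm : ∀ i j : ℕ, z ^ i * y ^ j = y ^ j * z ^ i := by
    intro i j
    have h1 : Commute z y := hyz.symm
    exact (h1.pow_pow i j).eq
  refine ⟨{ toFun := fun s => y ^ (s.1.toAdd).val * z ^ (s.2.toAdd).val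
            map_one' := ?_
            map_mul' := ?_ }, ?_⟩
  · simp only [Prod.fst_one, Prod.snd_one, toAdd_one, ZMod.val_zero, pow_zero, mul_one]
  · intro s t
    simp only [Prod.fst_mul, Prod.snd_mul, toAdd_mul]
    rw [hadd y hy, hadd z hz]
    have h1 := hcomm (s.2.toAdd).val (t.1.toAdd).val
    calc y ^ (s.1.toAdd).val * y ^ (t.1.toAdd).val *
          (z ^ (s.2.toAdd).val * z ^ (t.2.toAdd).val)
        = y ^ (s.1.toAdd).val * (y ^ (t.1.toAdd).val * z ^ (s.2.toAdd).val) *
          z ^ (t.2.toAdd).val := by group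
      _ = y ^ (s.1.toAdd).val * (z ^ (s.2.toAdd).val * y ^ (t.1.toAdd).val) *
          z ^ (t.2.toAdd).val := by rw [h1]
      _ = _ := by group
  · rw [injective_iff_map_eq_one]
    intro s hs
    have hs' : y ^ (s.1.toAdd).val * z ^ (s.2.toAdd).val = 1 := hs
    have ha : s.1.toAdd = 0 := by
      by_contra ha
      refine hn ?_
      rw [← hinv y hy _ ha]
      refine Subgroup.pow_mem _ ?_ _
      rw [eq_inv_of_mul_eq_one_left hs']
      exact Subgroup.inv_mem _ (Subgroup.npow_mem_zpowers z _)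
    have hb : s.2.toAdd = 0 := by
      by_contra hb
      refine hz1 ?_
      rw [← hinv z hz _ hb]
      rw [ha, ZMod.val_zero, pow_zero, one_mul] at hs'
      rw [hs', one_pow]
    exact Prod.ext (Multiplicative.toAdd.injective ha) (Multiplicative.toAdd.injective hb)

/-- **Sylow subgroups of finite quotients are cyclic.** -/
theorem FinB_cyc (q : ℕ) [Fact q.Prime] (hq : q ≠ 2) (hCB : CB q L) {T : Subgroup L}
    (hT : T.FiniteIndex) {S : Subgroup L} (hSf : S.FiniteIndex)
    (hS : ∀ U : Subgroup L, U ≤ S → U.FiniteIndex → NoHom q U) (N : Subgroup T) [N.Normal]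
    [N.FiniteIndex] (P : Sylow q (T ⧸ N)) : IsCyclic P := by
  by_contra hP
  have hqp := (Fact.out : q.Prime)
  have hZfin : Finite (Multiplicative (ZMod q)) := by
    have : NeZero q := ⟨hqp.ne_zero⟩
    exact inferInstanceAs (Finite (ZMod q))
  set N' : Subgroup T := (N ⊓ S.subgroupOf T).normalCore with hN'
  have hN'n : N'.Normal := by
    rw [hN']
    infer_instance
  have hN'f : N'.FiniteIndex := by
    rw [hN']
    infer_instance
  have hle : N' ≤ N := (Subgroup.normalCore_le _).trans inf_le_left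
  have hleS : N' ≤ S.subgroupOf T := (Subgroup.normalCore_le _).trans inf_le_right
  let f : T ⧸ N' →* T ⧸ N := QuotientGroup.map N' N (MonoidHom.id T) hle
  have hf : Function.Surjective f := by
    intro x
    obtain ⟨t, rfl⟩ := QuotientGroup.mk_surjective x
    exact ⟨(t : T ⧸ N'), rfl⟩
  obtain ⟨P', rfl⟩ := Sylow.mapSurjective_surjective hf q P
  have hP' : ¬ IsCyclic P' := by
    intro hc
    refine hP ?_
    exact isCyclic_of_surjective (f.subgroupMap (P' : Subgroup (T ⧸ N')))
      (MonoidHom.subgroupMap_surjective f (P' : Subgroup (T ⧸ N')))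
  obtain ⟨y, z, hy, hz, hz1, hyz, hyz'⟩ :=
    PgrA_exists q hq (Nat.card P') P' le_rfl P'.isPGroup' hP'
  obtain ⟨ψ₀, hψ₀⟩ := FinB_psi q y z hy hz hz1 hyz hyz'
  set ψ : Multiplicative (ZMod q) × Multiplicative (ZMod q) →* T ⧸ N' :=
    (P' : Subgroup (T ⧸ N')).subtype.comp ψ₀ with hψdef
  have hψ : Function.Injective ψ :=
    (P' : Subgroup (T ⧸ N')).subtype_injective.comp hψ₀
  let e : Multiplicative (ZMod q) × Multiplicative (ZMod q) ≃* ψ.range := MonoidHom.ofInjective hψ
  set V : Subgroup T := ψ.range.comap (QuotientGroup.mk' N') with hV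
  have hVf : V.FiniteIndex := by
    refine ⟨?_⟩
    rw [hV, Subgroup.index_comap_of_surjective _ (QuotientGroup.mk'_surjective N')]
    exact Subgroup.FiniteIndex.index_ne_zero
  let π : V →* Multiplicative (ZMod q) × Multiplicative (ZMod q) :=
    e.symm.toMonoidHom.comp ((QuotientGroup.mk' N').subgroupComap ψ.range)
  have hπ : Function.Surjective π := e.symm.surjective.comp
    (MonoidHom.subgroupComap_surjective_of_surjective _ _ (QuotientGroup.mk'_surjective N'))
  have hπk : ∀ x : V, x ∈ π.ker → (x : T) ∈ N' := by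
    intro x hx
    have h1 : e.symm ((QuotientGroup.mk' N').subgroupComap ψ.range x) = 1 := hx
    have h2 : (QuotientGroup.mk' N').subgroupComap ψ.range x = 1 := by
      rw [← map_one e.symm] at h1
      exact e.symm.injective h1
    have h3 : QuotientGroup.mk' N' (x : T) = 1 := congrArg Subtype.val h2
    exact (QuotientGroup.eq_one_iff _).1 h3
  have hkf : π.ker.FiniteIndex := Subgroup.finiteIndex_ker π
  have hk2 : (π.ker.map V.subtype).FiniteIndex := DpA_fin hVf π.ker hkf
  have hno : NoHom q (π.ker.map V.subtype) := by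
    refine FinB_sub q hT hS _ hk2 ?_
    rintro _ ⟨_, ⟨x, hx, rfl⟩, rfl⟩
    exact Subgroup.mem_subgroupOf.1 (hleS (hπk x hx))
  have hno' : NoHom q π.ker :=
    hno.congr (π.ker.equivMapOfInjective V.subtype V.subtype_injective).symm
  have hCB1 : CB1 q V := (hCB (V.map T.subtype) (DpA_fin hT V hVf)).congr
    (V.equivMapOfInjective T.subtype T.subtype_injective).symm
  exact CocB_noZp2 q hCB1 π hπ hno'

theorem FinB_Z {T : Subgroup L} (hT : T.FiniteIndex)
    (h2 : ∀ U : Subgroup L, U ≤ T → U.FiniteIndex → NoHom 2 U)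
    (hq : ∀ (q : ℕ) [Fact q.Prime], CB q L ∧ ∃ S : Subgroup L, S.FiniteIndex ∧
      ∀ U : Subgroup L, U ≤ S → U.FiniteIndex → NoHom q U) (N : Subgroup T) [N.Normal]
    [N.FiniteIndex] : IsZGroup (T ⧸ N) := by
  refine ⟨fun q hqp P => ?_⟩
  have : Fact q.Prime := ⟨hqp⟩
  by_cases hq2 : q = 2
  · subst hq2
    have h3 := FinB_nodiv 2 hT h2 N
    obtain ⟨k, hk⟩ := (IsPGroup.iff_card (p := 2) (G := P)).1 P.isPGroup'
    have hk0 : k = 0 := by
      by_contra hk0
      refine h3 ((dvd_pow_self 2 hk0).trans ?_)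
      rw [← hk]
      exact Subgroup.card_subgroup_dvd_card _
    rw [hk0, pow_zero] at hk
    have : Subsingleton P := (Nat.card_eq_one_iff_unique.1 hk).1
    exact isCyclic_of_subsingleton
  · obtain ⟨hCB, S, hSf, hS⟩ := hq q
    exact FinB_cyc q hq2 hCB hT hSf hS N P

/-- **The case of finite abelianizations.** -/
theorem FinB_finite (hL : Group.FG L) (hs : SubEx L) (hf : FAb L) (hlg : LocGr L) (D : ℕ)
    (hr : RK L D) (hCB : ∀ (p : ℕ) [Fact p.Prime], CB p L) : Finite L := by
  by_contra hfin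
  have hinf : Infinite L := not_finite_iff_infinite.1 hfin
  have hT : ∀ (p : ℕ) [Fact p.Prime], ∃ S : Subgroup L, S.FiniteIndex ∧
      ∀ U : Subgroup L, U ≤ S → U.FiniteIndex → NoHom p U := by
    intro p _
    refine FinA_T p hL (D := D) (fun H hH => hr p H hH) ?_
    intro H hH
    have fgH := fg_subgroup hL H hH
    have sH := hs.subgroup H
    have fH := hf.subgroup H hH
    have rH := hr.subgroup H hH
    exact pn_finite (r := D) fgH (linFin fgH sH fH) fH (fun K hK => rH p K hK)
  have h2p : Fact (Nat.Prime 2) := ⟨Nat.prime_two⟩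
  obtain ⟨T, hTf, hT2⟩ := hT 2
  have hZ : ∀ (N : Subgroup T) [N.Normal] [N.FiniteIndex], IsZGroup (T ⧸ N) := fun N _ _ =>
    FinB_Z hTf hT2 (fun q _ => ⟨hCB q, hT q⟩) N
  have hfT : FAb T := hf.subgroup T hTf
  have hAbT : Finite (Abelianization T) := hf T hTf
  set C : Subgroup T := commutator T with hC
  have hCf : C.FiniteIndex := by
    have : Finite (T ⧸ commutator T) := hAbT
    exact Subgroup.finiteIndex_of_finite_quotient
  have hAbC : Finite (Abelianization C) := hfT C hCf
  have hCC : (commutator C).FiniteIndex := by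
    have : Finite (C ⧸ commutator C) := hAbC
    exact Subgroup.finiteIndex_of_finite_quotient
  set C₂ : Subgroup T := ⁅C, C⁆ with hC₂
  have hC₂f : C₂.FiniteIndex := by
    rw [hC₂, ← Subgroup.map_subtype_commutator]
    exact DpA_fin hCf _ hCC
  have hC₂N : ∀ (N : Subgroup T) [N.Normal] [N.FiniteIndex], C₂ ≤ N := by
    intro N _ _
    have hz := hZ N
    have hcyc : IsCyclic (commutator (T ⧸ N)) := IsZGroup.isCyclic_commutator (T ⧸ N)
    have hmap : ∀ x ∈ C, QuotientGroup.mk' N x ∈ commutator (T ⧸ N) := by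
      intro x hx
      have h1 : C.map (QuotientGroup.mk' N) ≤ commutator (T ⧸ N) := by
        rw [hC, commutator_def, commutator_def, Subgroup.map_commutator]
        exact Subgroup.commutator_mono le_top le_top
      exact h1 ⟨x, hx, rfl⟩
    rw [hC₂, Subgroup.commutator_le]
    intro x hx y hy
    rw [← QuotientGroup.eq_one_iff]
    have h1 := hmap x hx
    have h2 := hmap y hy
    obtain ⟨g, hg⟩ := hcyc.exists_generator
    obtain ⟨i, hi⟩ := hg ⟨_, h1⟩
    obtain ⟨j, hj⟩ := hg ⟨_, h2⟩
    have h3 : (⟨_, h1⟩ : commutator (T ⧸ N)) * ⟨_, h2⟩ = ⟨_, h2⟩ * ⟨_, h1⟩ := by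
      rw [← hi, ← hj]
      exact (Commute.zpow_zpow_self g i j).eq
    have h4 : QuotientGroup.mk' N x * QuotientGroup.mk' N y =
        QuotientGroup.mk' N y * QuotientGroup.mk' N x := congrArg Subtype.val h3
    change QuotientGroup.mk' N ⁅x, y⁆ = 1
    rw [map_commutatorElement]
    exact commutatorElement_eq_one_iff_mul_comm.2 h4
  set M : Subgroup L := C₂.map T.subtype with hM
  have hMf : M.FiniteIndex := DpA_fin hTf C₂ hC₂f
  have hMfg : M.FG := (Group.fg_iff_subgroup_fg M).1 (fg_subgroup hL M hMf)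
  have hMinf : Infinite M := by
    by_contra hni
    have hMfin : Finite M := not_infinite_iff_finite.1 hni
    have : Finite ((L ⧸ M) × M) := inferInstance
    exact hfin (Finite.of_equiv _ (Subgroup.groupEquivQuotientProdSubgroup (s := M)).symm)
  obtain ⟨N₀, hlt, hrel⟩ := hlg M hMfg hMinf
  have hN₀f : N₀.FiniteIndex := by
    refine ⟨?_⟩
    rw [← Subgroup.relIndex_mul_index hlt.le]
    exact mul_ne_zero hrel hMf.index_ne_zero
  have h1 := hC₂N (N₀.subgroupOf T).normalCore
  refine hlt.not_ge ?_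
  rintro _ ⟨c, hc, rfl⟩
  exact Subgroup.mem_subgroupOf.1 (Subgroup.normalCore_le _ (h1 hc))

end PDG
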