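import Pool.Agent.W_3f3beb_h30.CocB
import Pool.Agent.W_3f3beb_h76.RaiseA

/-!
# MP_3f3beb_al: two-cocycles of a semidirect product with `ℤ`
-/

set_option autoImplicit false

open scoped Classical

namespace PDG

variable (p : ℕ) [Fact p.Prime] {Q : Type} [Group Q] (α : Multiplicative ℤ →* MulAut Q)

/-- `Hom` of a semidirect product with `ℤ` -/
theorem InhA_dp (hQ : Group.FG Q) : dp p (Q ⋊[α] Multiplicative ℤ) ≤ dp p Q + 1 := by
  have hfd := hom_finite p hQ
  let T : Q ⋊[α] Multiplicative ℤ := SemidirectProduct.inr (Multiplicative.ofAdd 1)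
  let Φ : (Additive (Q ⋊[α] Multiplicative ℤ) →+ ZMod p) →ₗ[ZMod p]
      ((Additive Q →+ ZMod p) × ZMod p) :=
    { toFun := fun θ => (θ.comp (MonoidHom.toAdditive (SemidirectProduct.inl :
        Q →* Q ⋊[α] Multiplicative ℤ)), θ (Additive.ofMul T))
      map_add' := fun _ _ => rfl
      map_smul' := fun _ _ => rfl }
  have hΦ : Function.Injective Φ := by
    rw [← LinearMap.ker_eq_bot, LinearMap.ker_eq_bot']
    intro θ hθ
    have e1 : ∀ q : Q, θ (Additive.ofMul (SemidirectProduct.inl q :
        Q ⋊[α] Multiplicative ℤ)) = 0 := fun q =>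
      DFunLike.congr_fun (congrArg Prod.fst hθ) (Additive.ofMul q)
    have e2 : θ (Additive.ofMul T) = 0 := congrArg Prod.snd hθ
    refine AddMonoidHom.ext fun x => ?_
    have h1 : x.toMul = SemidirectProduct.inl x.toMul.left * T ^ (x.toMul.right.toAdd : ℤ) := by
      have h2 : T ^ (x.toMul.right.toAdd : ℤ) =
          (SemidirectProduct.inr x.toMul.right : Q ⋊[α] Multiplicative ℤ) := by
        rw [← map_zpow]
        congr 1
        exact Multiplicative.toAdd.injective (by simp)
      rw [h2]
      exact (SemidirectProduct.inl_left_mul_inr_right _).symm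
    have h2 : θ x = θ (Additive.ofMul (SemidirectProduct.inl x.toMul.left *
        T ^ (x.toMul.right.toAdd : ℤ))) := by
      rw [← h1]
      rfl
    rw [h2, ofMul_mul, map_add, e1, ofMul_zpow, map_zsmul, e2, smul_zero, add_zero]
    rfl
  have h3 := LinearMap.finrank_le_finrank_of_injective hΦ
  rw [Module.finrank_prod, Module.finrank_self] at h3
  exact h3

/-- **Two-cocycles of a semidirect product with `ℤ`.** -/
theorem InhA_sd (hα : ∀ i, α i ∈ RaiseA_stab p Q) (hQ : Group.FG Q)
    {P : Type} [Group P] [Finite P] (π : Q →* P) (hπ : ∀ i q, π (α i q) = π q) {n : ℕ}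
    (F : Fin n → P → P → ZMod p) (hF : IndCoc p π F)
    (hCB : CB1 p (Q ⋊[α] Multiplicative ℤ)) : n ≤ max 1 (dp p Q) := by
  have hfd := hom_finite p hQ
  set d := dp p Q with hd
  let b : Module.Basis (Fin d) (ZMod p) (Additive Q →+ ZMod p) :=
    Module.finBasis (ZMod p) (Additive Q →+ ZMod p)
  let P' : Type := P × (Fin d → Multiplicative (ZMod p)) × Multiplicative (ZMod p)
  have hfin : Finite P' := by
    have : NeZero p := ⟨(Fact.out : p.Prime).ne_zero⟩
    have : Finite (Multiplicative (ZMod p)) := inferInstanceAs (Finite (ZMod p))
    infer_instance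
  let π' : Q ⋊[α] Multiplicative ℤ →* P' :=
    { toFun := fun x => (π x.left, fun j => Multiplicative.ofAdd (b j (Additive.ofMul x.left)),
        Multiplicative.ofAdd (((x.right.toAdd : ℤ)) : ZMod p))
      map_one' := by
        refine Prod.ext ?_ (Prod.ext ?_ ?_)
        · exact map_one π
        · funext j
          change Multiplicative.ofAdd (b j (Additive.ofMul (1 : Q))) = 1
          rw [ofMul_one, map_zero, ofAdd_zero]
        · change Multiplicative.ofAdd (((0 : ℤ)) : ZMod p) = 1
          rw [Int.cast_zero, ofAdd_zero]
      map_mul' := by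
        intro x y
        refine Prod.ext ?_ (Prod.ext ?_ ?_)
        · change π (x.left * α x.right y.left) = π x.left * π y.left
          rw [map_mul, hπ]
        · funext j
          change Multiplicative.ofAdd (b j (Additive.ofMul (x.left * α x.right y.left))) =
            Multiplicative.ofAdd (b j (Additive.ofMul x.left)) *
            Multiplicative.ofAdd (b j (Additive.ofMul y.left))
          rw [ofMul_mul, map_add, hα x.right (b j) y.left, ofAdd_add]
        · change Multiplicative.ofAdd ((((x.right * y.right).toAdd : ℤ)) : ZMod p) =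
            Multiplicative.ofAdd (((x.right.toAdd : ℤ)) : ZMod p) *
            Multiplicative.ofAdd (((y.right.toAdd : ℤ)) : ZMod p)
          rw [toAdd_mul, Int.cast_add, ofAdd_add] }
  let A : Fin n → P' → P' → ZMod p := fun i s t => F i s.1 t.1
  let B : Fin d → P' → P' → ZMod p := fun j s t => (s.2.1 j).toAdd * t.2.2.toAdd
  let F' : Fin (n + d) → P' → P' → ZMod p := Fin.append A B
  have hF'1 : ∀ (i : Fin n) (x y : Q ⋊[α] Multiplicative ℤ),
      F' (Fin.castAdd d i) (π' x) (π' y) = F i (π x.left) (π y.left) := by
    intro i x y
    exact congrFun (congrFun (Fin.append_left A B i) (π' x)) (π' y)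
  have hF'2 : ∀ (j : Fin d) (x y : Q ⋊[α] Multiplicative ℤ),
      F' (Fin.natAdd n j) (π' x) (π' y) =
        b j (Additive.ofMul x.left) * (((y.right.toAdd : ℤ)) : ZMod p) := by
    intro j x y
    exact congrFun (congrFun (Fin.append_right A B j) (π' x)) (π' y)
  have hleft : ∀ x y : Q ⋊[α] Multiplicative ℤ, π (x * y).left = π (x.left * y.left) := by
    intro x y
    change π (x.left * α x.right y.left) = _
    rw [map_mul, map_mul, hπ]
  have hInd : IndCoc p π' F' := by
    refine ⟨fun k => ?_, fun a ha => ?_⟩
    · refine Fin.addCases (fun i => ?_) (fun j => ?_) k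
      · intro x y z
        have h1 := hF.coc i x.left y.left z.left
        change F' (Fin.castAdd d i) (π' y) (π' z) + F' (Fin.castAdd d i) (π' x) (π' (y * z)) =
          F' (Fin.castAdd d i) (π' (x * y)) (π' z) + F' (Fin.castAdd d i) (π' x) (π' y)
        rw [hF'1, hF'1, hF'1, hF'1, hleft, hleft]
        exact h1
      · intro x y z
        change F' (Fin.natAdd n j) (π' y) (π' z) + F' (Fin.natAdd n j) (π' x) (π' (y * z)) =
          F' (Fin.natAdd n j) (π' (x * y)) (π' z) + F' (Fin.natAdd n j) (π' x) (π' y)
        rw [hF'2, hF'2, hF'2, hF'2]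
        have h1 : b j (Additive.ofMul (x * y).left) = b j (Additive.ofMul x.left) +
            b j (Additive.ofMul y.left) := by
          change b j (Additive.ofMul (x.left * α x.right y.left)) = _
          rw [ofMul_mul, map_add, hα x.right (b j) y.left]
        have h2 : ((((y * z).right.toAdd : ℤ)) : ZMod p) =
            (((y.right.toAdd : ℤ)) : ZMod p) + (((z.right.toAdd : ℤ)) : ZMod p) := by
          change ((((y.right * z.right).toAdd : ℤ)) : ZMod p) = _
          rw [toAdd_mul, Int.cast_add]
        rw [h1, h2]
        ring
    · obtain ⟨u, hu⟩ := ha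
      have hu1 : ∀ x y : Q ⋊[α] Multiplicative ℤ,
          ∑ i, a (Fin.castAdd d i) * F i (π x.left) (π y.left) +
          ∑ j, a (Fin.natAdd n j) * (b j (Additive.ofMul x.left) *
            (((y.right.toAdd : ℤ)) : ZMod p)) = u x + u y - u (x * y) := by
        intro x y
        have h1 : ∑ k, a k * F' k (π' x) (π' y) = u x + u y - u (x * y) := hu x y
        rw [Fin.sum_univ_add] at h1
        simp only [hF'1, hF'2] at h1
        exact h1
      have ha1 : ∀ i, a (Fin.castAdd d i) = 0 := by
        have h1 := hF.ind (fun i => a (Fin.castAdd d i))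
          ⟨fun q => u (SemidirectProduct.inl q), fun x y => ?_⟩
        · exact fun i => congrFun h1 i
        · have h2 := hu1 (SemidirectProduct.inl x) (SemidirectProduct.inl y)
          rw [← map_mul] at h2
          simp only [SemidirectProduct.left_inl, SemidirectProduct.right_inl, toAdd_one,
            Int.cast_zero, mul_zero, Finset.sum_const_zero, add_zero] at h2
          exact h2
      -- the homomorphism `X`
      let X : Additive Q →+ ZMod p := ∑ j, a (Fin.natAdd n j) • b j
      have hX : ∀ q : Q, X (Additive.ofMul q) =
          ∑ j, a (Fin.natAdd n j) * b j (Additive.ofMul q) := by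
        intro q
        change (∑ j, a (Fin.natAdd n j) • b j) (Additive.ofMul q) = _
        rw [AddMonoidHom.finsetSum_apply]
        rfl
      have hu2 : ∀ x y : Q ⋊[α] Multiplicative ℤ,
          X (Additive.ofMul x.left) * (((y.right.toAdd : ℤ)) : ZMod p) =
            u x + u y - u (x * y) := by
        intro x y
        have h1 := hu1 x y
        rw [Finset.sum_eq_zero (fun i _ => by rw [ha1 i, zero_mul]), zero_add] at h1
        rw [← h1, hX, Finset.sum_mul]
        refine Finset.sum_congr rfl fun j _ => ?_
        ring
      let v : Additive Q →+ ZMod p :=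
        { toFun := fun q => u (SemidirectProduct.inl q.toMul)
          map_zero' := by
            have h1 := hu2 1 1
            rw [mul_one] at h1
            change u (SemidirectProduct.inl 1) = 0
            rw [map_one]
            simp only [SemidirectProduct.one_left, SemidirectProduct.one_right, ofMul_one,
              map_zero, zero_mul] at h1
            linear_combination -h1
          map_add' := fun q q' => by
            have h1 := hu2 (SemidirectProduct.inl q.toMul) (SemidirectProduct.inl q'.toMul)
            rw [← map_mul] at h1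
            simp only [SemidirectProduct.left_inl, SemidirectProduct.right_inl, toAdd_one,
              Int.cast_zero, mul_zero] at h1
            change u (SemidirectProduct.inl (q.toMul * q'.toMul)) = _
            linear_combination h1 }
      have hv : ∀ q : Q, v (Additive.ofMul q) = u (SemidirectProduct.inl q) := fun _ => rfl
      let T : Q ⋊[α] Multiplicative ℤ := SemidirectProduct.inr (Multiplicative.ofAdd 1)
      have hX0 : X = 0 := by
        refine AddMonoidHom.ext fun x => ?_
        obtain ⟨q', hq'⟩ := (α (Multiplicative.ofAdd 1)).surjective x.toMul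
        have h1 := hu2 (SemidirectProduct.inl x.toMul) T
        have h2 := hu2 T (SemidirectProduct.inl q')
        have h3 : (SemidirectProduct.inl x.toMul : Q ⋊[α] Multiplicative ℤ) * T =
            T * SemidirectProduct.inl q' := by
          refine SemidirectProduct.ext ?_ ?_
          · change x.toMul * α 1 1 = 1 * α (Multiplicative.ofAdd 1) q'
            rw [map_one, mul_one, one_mul, hq']
          · change (1 : Multiplicative ℤ) * Multiplicative.ofAdd 1 =
              Multiplicative.ofAdd 1 * 1
            rw [one_mul, mul_one]
        have h4 : v (Additive.ofMul (α (Multiplicative.ofAdd 1) q')) = v (Additive.ofMul q') :=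
          hα _ v q'
        rw [hq', hv, hv] at h4
        have h5 : (T.right.toAdd : ℤ) = 1 := rfl
        have h6 : T.left = 1 := rfl
        rw [h5, SemidirectProduct.left_inl, Int.cast_one, mul_one] at h1
        rw [h6, ofMul_one, map_zero, zero_mul] at h2
        rw [h3] at h1
        change X (Additive.ofMul x.toMul) = 0
        linear_combination h1 + h4 - h2
      have h2 : ∀ j, a (Fin.natAdd n j) = 0 := by
        have h3 := (Fintype.linearIndependent_iff.1 b.linearIndependent)
          (fun j => a (Fin.natAdd n j)) hX0
        exact h3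
      funext k
      refine Fin.addCases (fun i => ?_) (fun j => ?_) k
      · exact ha1 i
      · exact h2 j
  have h1 := hCB P' π' (n + d) F' hInd
  have h2 := InhA_dp p α hQ
  rw [← hd] at h2
  have h3 : max (max 1 (dp p (Q ⋊[α] Multiplicative ℤ)))
      (2 * dp p (Q ⋊[α] Multiplicative ℤ) - 2) ≤ max (d + 1) (2 * d) := by
    refine max_le (max_le ?_ ?_) ?_
    · exact le_trans (by omega) (le_max_left _ _)
    · exact le_trans h2 (le_max_left _ _)
    · exact le_trans (by omega) (le_max_right _ _)
  have h4 := h1.trans h3
  rcases le_max_iff.1 h4 with h5 | h5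
  · exact le_trans (by omega) (le_max_left _ _)
  · exact le_trans (by omega) (le_max_right _ _)

end PDG
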