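import Pool.Agent.W_3f3beb_h30.InhA

/-!
# MP_3f3beb_al: the bound for two-cocycles passes to kernels of homomorphisms onto `ℤ`
-/

set_option autoImplicit false

open scoped Classical

namespace PDG

variable {H : Type} [Group H]

/-- the automorphisms which fix `π` -/
def InhB_stab {Q P : Type} [Group Q] [Group P] (π : Q →* P) : Subgroup (MulAut Q) where
  carrier := {s | ∀ q : Q, π (s q) = π q}
  mul_mem' := by
    intro a b ha hb q
    exact (ha (b q)).trans (hb q)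
  one_mem' := fun q => rfl
  inv_mem' := by
    intro a ha q
    have h1 := ha (a⁻¹ q)
    rw [MulAut.apply_inv_self] at h1
    exact h1.symm

/-- some power of an automorphism fixes a homomorphism to a finite group -/
theorem InhB_pow {Q P : Type} [Group Q] [Group P] [Finite P] (hQ : Group.FG Q) (π : Q →* P)
    (τ : MulAut Q) : ∃ b : ℕ, 1 ≤ b ∧ τ ^ b ∈ InhB_stab π := by
  have hfin : Finite (Q →* P) := SgA_aux_hom hQ P
  obtain ⟨x, y, hxy, h⟩ := Finite.exists_ne_map_eq_of_infinite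
    (fun (i : ℕ) => π.comp ((τ ^ i : MulAut Q) : Q ≃* Q).toMonoidHom)
  have key : ∀ x y : ℕ, x < y → π.comp ((τ ^ x : MulAut Q) : Q ≃* Q).toMonoidHom =
      π.comp ((τ ^ y : MulAut Q) : Q ≃* Q).toMonoidHom →
      ∃ b : ℕ, 1 ≤ b ∧ τ ^ b ∈ InhB_stab π := by
    intro x y hxy h
    refine ⟨y - x, by omega, fun q => ?_⟩
    have h2 : π ((τ ^ x : MulAut Q) (((τ ^ x)⁻¹ : MulAut Q) q)) =
        π ((τ ^ y : MulAut Q) (((τ ^ x)⁻¹ : MulAut Q) q)) :=
      DFunLike.congr_fun h (((τ ^ x)⁻¹ : MulAut Q) q)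
    rw [MulAut.apply_inv_self, ← MulAut.mul_apply] at h2
    have h3 : τ ^ y * (τ ^ x)⁻¹ = τ ^ (y - x) := by
      rw [← pow_sub τ hxy.le]
    rw [h3] at h2
    exact h2.symm
  rcases lt_or_gt_of_ne hxy with h' | h'
  · exact key x y h' h
  · exact key y x h' h.symm

/-- **The bound for the number of two-cocycles passes to kernels of homomorphisms onto `ℤ`.** -/
theorem InhB_ker (p : ℕ) [Fact p.Prime] (hCB : CB p H) (φ : H →* Multiplicative ℤ)
    (hφ : Function.Surjective φ) (hK : Group.FG φ.ker) : CB p φ.ker := by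
  intro K₁ h1
  obtain ⟨t, ht⟩ := hφ (Multiplicative.ofAdd 1)
  obtain ⟨a, ha, hta⟩ := RaiseA_norm (N := φ.ker) inferInstance hK K₁ h1 t
  set Q : Subgroup H := K₁.map φ.ker.subtype with hQdef
  let eQ : K₁ ≃* Q := K₁.equivMapOfInjective φ.ker.subtype φ.ker.subtype_injective
  have hK₁fg : Group.FG K₁ := by
    have := hK
    infer_instance
  have hQfg : Group.FG Q := by
    have := hK₁fg
    exact Group.fg_of_surjective (f := eQ.toMonoidHom) eQ.surjective
  refine CB1.congr eQ.symm ?_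
  intro P _ _ π n F hF
  let T₁ : Subgroup.normalizer (Q : Set H) := ⟨t ^ a, hta⟩
  obtain ⟨b₁, hb₁, hτ₁⟩ := RaiseA_pow p hQfg (Q.normalizerMonoidHom T₁)
  obtain ⟨b₂, hb₂, hτ₂⟩ := InhB_pow hQfg π (Q.normalizerMonoidHom T₁)
  obtain ⟨b, hbdef⟩ : ∃ b : ℕ, b = b₁ * b₂ := ⟨_, rfl⟩
  have hb : 0 < b := by
    rw [hbdef]
    exact Nat.mul_pos hb₁ hb₂
  have hτ : Q.normalizerMonoidHom T₁ ^ b ∈ RaiseA_stab p Q := by
    rw [hbdef, pow_mul]
    exact Subgroup.pow_mem _ hτ₁ _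
  have hτπ : Q.normalizerMonoidHom T₁ ^ b ∈ InhB_stab π := by
    rw [hbdef, mul_comm, pow_mul]
    exact Subgroup.pow_mem _ hτ₂ _
  let α : Multiplicative ℤ →* MulAut Q :=
    Q.normalizerMonoidHom.comp (zpowersHom _ (T₁ ^ b))
  have hαeq : ∀ i, α i = (Q.normalizerMonoidHom T₁ ^ b) ^ (i.toAdd : ℤ) := by
    intro i
    change Q.normalizerMonoidHom ((T₁ ^ b) ^ (i.toAdd : ℤ)) = _
    rw [map_zpow, map_pow]
  have hα : ∀ i, α i ∈ RaiseA_stab p Q := by
    intro i
    rw [hαeq i]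
    exact Subgroup.zpow_mem _ hτ _
  have hπ : ∀ i q, π (α i q) = π q := by
    intro i
    have h2 : α i ∈ InhB_stab π := by
      rw [hαeq i]
      exact Subgroup.zpow_mem _ hτπ _
    exact h2
  let E : (Q ⋊[α] Multiplicative ℤ) →* H :=
    SemidirectProduct.lift Q.subtype (zpowersHom H (t ^ (a * b))) (by
      intro i
      refine MonoidHom.ext fun q => ?_
      change (((T₁ ^ b) ^ (i.toAdd : ℤ) : Subgroup.normalizer (Q : Set H)) : H) * (q : H) *
        ((((T₁ ^ b) ^ (i.toAdd : ℤ) : Subgroup.normalizer (Q : Set H)) : H))⁻¹ =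
        (t ^ (a * b)) ^ (i.toAdd : ℤ) * (q : H) * ((t ^ (a * b)) ^ (i.toAdd : ℤ))⁻¹
      have h2 : (((T₁ ^ b) ^ (i.toAdd : ℤ) : Subgroup.normalizer (Q : Set H)) : H) =
          (t ^ (a * b)) ^ (i.toAdd : ℤ) := by
        rw [Subgroup.coe_zpow, Subgroup.coe_pow, pow_mul]
      rw [h2])
  have hEapp : ∀ x, E x = (x.left : H) * (t ^ (a * b)) ^ (x.right.toAdd : ℤ) := fun x => rfl
  have hQφ : ∀ q : Q, φ q = 1 := by
    rintro ⟨_, k, hk, rfl⟩
    exact k.2
  have hφE : ∀ x, (φ (E x)).toAdd = (a * b : ℕ) * x.right.toAdd := by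
    intro x
    rw [hEapp, map_mul, hQφ, one_mul, map_zpow, map_pow, ht, toAdd_zpow, toAdd_pow, toAdd_ofAdd]
    simp only [smul_eq_mul, nsmul_eq_mul, mul_one]
    ring
  have hab : 0 < a * b := Nat.mul_pos ha hb
  have hEinj : Function.Injective E := by
    rw [injective_iff_map_eq_one]
    intro x hx
    have h2 := hφE x
    rw [hx, map_one, toAdd_one] at h2
    have h3 : x.right.toAdd = 0 := by
      rcases mul_eq_zero.1 h2.symm with h4 | h4
      · exact absurd h4 (by positivity)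
      · exact h4
    have h4 := hEapp x
    rw [hx, h3, zpow_zero, mul_one] at h4
    refine SemidirectProduct.ext (Subtype.ext h4.symm) ?_
    exact h3
  let eE : (Q ⋊[α] Multiplicative ℤ) ≃* E.range := MonoidHom.ofInjective hEinj
  have hfin : E.range.FiniteIndex := by
    have hfinK : Finite (φ.ker ⧸ K₁) := inferInstance
    have hsurj : Function.Surjective (fun x : Fin (a * b) × (φ.ker ⧸ K₁) =>
        (((t ^ (x.1 : ℕ) * (x.2.out : φ.ker) : H)) : H ⧸ E.range)) := by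
      intro z
      obtain ⟨x, rfl⟩ := QuotientGroup.mk_surjective z
      set n : ℤ := (φ x).toAdd with hn
      have hab' : (0 : ℤ) < ((a * b : ℕ) : ℤ) := by exact_mod_cast hab
      obtain ⟨r, hr⟩ : ∃ r : ℕ, (r : ℤ) = n % ((a * b : ℕ) : ℤ) :=
        ⟨(n % ((a * b : ℕ) : ℤ)).toNat, Int.toNat_of_nonneg (Int.emod_nonneg _ hab'.ne')⟩
      have hr' : r < a * b := by
        have := Int.emod_lt_of_pos n hab'
        rw [← hr] at this
        exact_mod_cast this
      set i : ℤ := n / ((a * b : ℕ) : ℤ) with hi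
      have hdiv : n = ((a * b : ℕ) : ℤ) * i + r := by
        rw [hr]
        exact (Int.mul_ediv_add_emod n _).symm
      have hk : (t ^ r)⁻¹ * x * ((t ^ (a * b)) ^ i)⁻¹ ∈ φ.ker := by
        rw [MonoidHom.mem_ker]
        refine Multiplicative.toAdd.injective ?_
        simp only [φ.map_mul, φ.map_inv, map_zpow, map_pow, ht, toAdd_mul, toAdd_inv, toAdd_zpow,
          toAdd_pow, toAdd_ofAdd, ← hn, toAdd_one, smul_eq_mul, nsmul_eq_mul, mul_one]
        rw [hdiv]
        ring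
      set k : φ.ker := ⟨_, hk⟩ with hkdef
      refine ⟨(⟨r, hr'⟩, (k : φ.ker ⧸ K₁)), ?_⟩
      have hq : ((k : φ.ker ⧸ K₁).out)⁻¹ * k ∈ K₁ := by
        rw [← QuotientGroup.eq]
        exact Quotient.out_eq _
      rw [QuotientGroup.eq]
      refine ⟨⟨⟨_, _, hq, rfl⟩, Multiplicative.ofAdd i⟩, ?_⟩
      rw [hEapp]
      change (((((k : φ.ker ⧸ K₁).out)⁻¹ * k : φ.ker)) : H) * (t ^ (a * b)) ^ i = _
      rw [Subgroup.coe_mul, Subgroup.coe_inv, hkdef]
      change ((((k : φ.ker ⧸ K₁).out : φ.ker) : H))⁻¹ *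
        ((t ^ r)⁻¹ * x * ((t ^ (a * b)) ^ i)⁻¹) * (t ^ (a * b)) ^ i =
        (t ^ r * ((((k : φ.ker ⧸ K₁).out : φ.ker) : H)))⁻¹ * x
      group
    have : Finite (H ⧸ E.range) := Finite.of_surjective _ hsurj
    exact Subgroup.finiteIndex_of_finite_quotient
  have h2 : CB1 p (Q ⋊[α] Multiplicative ℤ) := (hCB E.range hfin).congr eE.symm
  have h3 := InhA_sd p α hα hQfg π hπ F hF h2
  refine h3.trans (le_max_left _ _)

end PDG
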