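import Pool.Agent.W_3f3beb_h30.InhB
import Pool.Agent.W_3f3beb_h30.FinB
import Pool.Agent.W_3f3beb_h76.Bridge

/-!
# MP_3f3beb_al: locally graded Poincaré duality groups of dimension 3 and 4
-/

set_option autoImplicit false

open scoped Classical

namespace PDG

variable {G : Type} [Group G]

/-- the number of independent two-cocycles in dimension 4 -/
theorem LocA_four (C : FinRes G 4) (hG : Group.FG G) (hinf : Infinite G) (hs : SubEx G)
    (w : G →* ℤˣ) (e' : Fin (C.r 4) → ℤ)
    (hw : PRes (cst w (mt C 3)) (cst w (mt C 2)) e')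
    (H : Subgroup G) (hH : H.FiniteIndex) (hHw : ∀ h ∈ H, w h = 1) (p : ℕ) [Fact p.Prime] :
    CB1 p H := by
  intro P _ _ π n F hF
  have fgH : Group.FG H := by
    have := hG
    infer_instance
  obtain ⟨e, he⟩ := pres_of_res C
  have hP := pres_blk H (mt C 0) (mt C 1) e he
  obtain ⟨e'', hQ⟩ := pres_star_blk H w hHw (mt C 3) (mt C 2) e' hw
  have h21 : blk H (mt C 2) * blk H (mt C 1) = 0 := by
    rw [← blk_mul, mt_mul]
    ext l j
    simp [blk, cut]
  have hchi := chi_zero C hs hinf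
  have r0 := rank_E0 p H _ _ _ fgH hP
  have r1 := rank_E1 p H _ _ _ fgH hP
  have q0 := rank_E0 p H _ _ _ fgH hQ
  have q1 := rank_E1 p H _ _ _ fgH hQ
  have hext := CocA_ext p H (blk H (mt C 0)) (blk H (mt C 1)) (blk H (mt C 2)) _ hP h21
    (fun i x y => F i (π x) (π y)) hF.coc hF.ind
  rw [Emod_star, Matrix.rank_transpose] at q0
  rw [Emod_star, Emod_star, Matrix.rank_transpose, Matrix.rank_transpose] at q1
  simp only [Fintype.card_prod, Fintype.card_fin] at *
  have hm : (Fintype.card (Qt H) : ℤ) * ((C.r 0 : ℤ) - C.r 1 + C.r 2 - C.r 3 + C.r 4) = 0 := by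
    have : ((C.r 0 : ℤ) - C.r 1 + C.r 2 - C.r 3 + C.r 4) = 0 := by
      rw [← hchi]
      simp [Finset.sum_range_succ]
      ring
    rw [this, mul_zero]
  have r0' : (C.r 0 : ℤ) * Fintype.card (Qt H) = (Emod p (blk H (mt C 0))).rank + 1 := by
    exact_mod_cast r0
  have r1' : (C.r 1 : ℤ) * Fintype.card (Qt H) = (Emod p (blk H (mt C 1))).rank +
      (Emod p (blk H (mt C 0))).rank + dp p H := by
    exact_mod_cast r1
  have q0' : (C.r 4 : ℤ) * Fintype.card (Qt H) = (Emod p (blk H (mt C 3))).rank + 1 := by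
    exact_mod_cast q0
  have q1' : (C.r 3 : ℤ) * Fintype.card (Qt H) = (Emod p (blk H (mt C 2))).rank +
      (Emod p (blk H (mt C 3))).rank + dp p H := by
    exact_mod_cast q1
  have hext' : (n : ℤ) + (Emod p (blk H (mt C 1))).rank + (Emod p (blk H (mt C 2))).rank ≤
      (C.r 2 : ℤ) * Fintype.card (Qt H) := by
    exact_mod_cast hext
  have h1 : (n : ℤ) + 2 ≤ 2 * dp p H := by
    linarith
  have h2 : n + 2 ≤ 2 * dp p H := by exact_mod_cast h1
  exact le_trans (by omega) (le_max_right _ _)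

/-- the number of independent two-cocycles in dimension 3 -/
theorem LocA_three (C : FinRes G 3) (hG : Group.FG G) (w : G →* ℤˣ) (e' : Fin (C.r 3) → ℤ)
    (hw : PRes (cst w (mt C 2)) (cst w (mt C 1)) e')
    (H : Subgroup G) (hH : H.FiniteIndex) (hHw : ∀ h ∈ H, w h = 1) (p : ℕ) [Fact p.Prime] :
    CB1 p H := by
  intro P _ _ π n F hF
  have fgH : Group.FG H := by
    have := hG
    infer_instance
  obtain ⟨e, he⟩ := pres_of_res C
  have hP := pres_blk H (mt C 0) (mt C 1) e he
  obtain ⟨e'', hQ⟩ := pres_star_blk H w hHw (mt C 2) (mt C 1) e' hw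
  have h21 : blk H (mt C 2) * blk H (mt C 1) = 0 := by
    rw [← blk_mul, mt_mul]
    ext l j
    simp [blk, cut]
  have q1 := rank_E1 p H _ _ _ fgH hQ
  rw [Emod_star, Emod_star, Matrix.rank_transpose, Matrix.rank_transpose] at q1
  have hext := CocA_ext p H (blk H (mt C 0)) (blk H (mt C 1)) (blk H (mt C 2)) _ hP h21
    (fun i x y => F i (π x) (π y)) hF.coc hF.ind
  simp only [Fintype.card_prod, Fintype.card_fin] at q1 hext
  have q1' : C.r 2 * Fintype.card (Qt H) = (Emod p (blk H (mt C 1))).rank +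
      (Emod p (blk H (mt C 2))).rank + dp p H := q1
  have hext' : n + (Emod p (blk H (mt C 1))).rank + (Emod p (blk H (mt C 2))).rank ≤
      C.r 2 * Fintype.card (Qt H) := hext
  have h1 : n ≤ dp p H := by omega
  exact h1.trans ((le_max_right 1 (dp p H)).trans (le_max_left _ _))

theorem LocA_exists (n : ℕ) (hn : n = 2 ∨ n = 3) (C : FinRes G (n + 1)) (hPD : C.IsPD)
    (hG : Group.FG G) (hinf : Infinite G) (hs : SubEx G) :
    ∃ H : Subgroup G, H.FiniteIndex ∧ RK H 8 ∧ ∀ (p : ℕ) [Fact p.Prime], CB p H := by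
  rcases hn with rfl | rfl
  · obtain ⟨w, e', hw⟩ := pres_of_dual (k := 1) C hPD
    have hK' : ∀ K : Subgroup w.ker, K.FiniteIndex → (K.map w.ker.subtype).FiniteIndex :=
      fun K hK => DpA_fin (ker_finiteIndex w) K hK
    have hK1 : ∀ K : Subgroup w.ker, ∀ h ∈ K.map w.ker.subtype, w h = 1 := by
      rintro K h ⟨k, _, rfl⟩
      exact k.2
    refine ⟨w.ker, ker_finiteIndex w, ?_, ?_⟩
    · intro p _ K hK
      have := dp_le_eight_three C hPD hG hs w e' hw (K.map w.ker.subtype) (hK' K hK) (hK1 K) p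
      rwa [← dp_congr p (K.equivMapOfInjective w.ker.subtype w.ker.subtype_injective)] at this
    · intro p _ K hK
      exact (LocA_three C hG w e' hw (K.map w.ker.subtype) (hK' K hK) (hK1 K) p).congr
        (K.equivMapOfInjective w.ker.subtype w.ker.subtype_injective).symm
  · obtain ⟨w, e', hw⟩ := pres_of_dual (k := 2) C hPD
    have hK' : ∀ K : Subgroup w.ker, K.FiniteIndex → (K.map w.ker.subtype).FiniteIndex :=
      fun K hK => DpA_fin (ker_finiteIndex w) K hK
    have hK1 : ∀ K : Subgroup w.ker, ∀ h ∈ K.map w.ker.subtype, w h = 1 := by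
      rintro K h ⟨k, _, rfl⟩
      exact k.2
    refine ⟨w.ker, ker_finiteIndex w, ?_, ?_⟩
    · intro p _ K hK
      have := dp_le_eight_four C hPD hG hinf hs w e' hw (K.map w.ker.subtype) (hK' K hK)
        (hK1 K) p
      rwa [← dp_congr p (K.equivMapOfInjective w.ker.subtype w.ker.subtype_injective)] at this
    · intro p _ K hK
      exact (LocA_four C hG hinf hs w e' hw (K.map w.ker.subtype) (hK' K hK) (hK1 K) p).congr
        (K.equivMapOfInjective w.ker.subtype w.ker.subtype_injective).symm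

/-- the induction -/
theorem LocA_ind (D : ℕ) : ∀ (L : Type) [Group L], Group.FG L → SubEx L → LocGr L → RK L D →
    (∀ (p : ℕ) [Fact p.Prime], CB p L) → Group.IsVirtuallyNilpotent L ∧ Poly L := by
  induction D using Nat.strong_induction_on with
  | _ D ih =>
  intro L _ hL hs hst hr hCB
  by_cases hf : FAb L
  · have := FinB_finite hL hs hf hst D hr hCB
    refine ⟨⟨⊥, ?_, ?_⟩, poly_of_finite⟩
    · infer_instance
    · infer_instance
  · obtain ⟨H, hH, φ, hφ⟩ := exists_surj_of_not_fab hL hf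
    have fgH := fg_subgroup hL H hH
    have sH := hs.subgroup H
    have fgK : Group.FG φ.ker := milnor fgH sH φ hφ
    have sK : SubEx φ.ker := sH.subgroup φ.ker
    have stH : LocGr H := hst.of_injective H.subtype H.subtype_injective
    have stK : LocGr φ.ker := stH.of_injective φ.ker.subtype φ.ker.subtype_injective
    have rH := hr.subgroup H hH
    have rK : ∀ (p : ℕ) [Fact p.Prime] (K₁ : Subgroup φ.ker), K₁.FiniteIndex →
        dp p K₁ + 1 ≤ D := by
      intro p _ K₁ hK₁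
      obtain ⟨H₂, h2, h2'⟩ := raise p fgH φ hφ fgK K₁ hK₁
      exact h2'.trans (rH p H₂ h2)
    have hD : 1 ≤ D := by
      have : Fact (Nat.Prime 2) := ⟨Nat.prime_two⟩
      have := rK 2 ⊤ inferInstance
      omega
    have rK' : RK φ.ker (D - 1) := by
      intro p _ K₁ hK₁
      have := rK p K₁ hK₁
      omega
    have cK : ∀ (p : ℕ) [Fact p.Prime], CB p φ.ker := fun p _ =>
      InhB_ker p ((hCB p).subgroup H hH) φ hφ fgK
    obtain ⟨nK, pK⟩ := ih (D - 1) (by omega) φ.ker fgK sK stK rK' cK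
    have nH := nilp_ext fgH sH φ hφ fgK nK
    have pH := poly_ext φ nH pK
    exact ⟨virt_of_finiteIndex H hH nH, pH.of_finiteIndex H hH⟩

theorem LocA_sub (h : IsPDGroup G 2 ∨ IsPDGroup G 3) (hst : LocGr G)
    (hG : Group.FG G) (hs : SubEx G) : Group.IsVirtuallyNilpotent G ∧ Poly G := by
  by_cases hfin : Finite G
  · refine ⟨⟨⊥, ?_, ?_⟩, poly_of_finite⟩
    · infer_instance
    · infer_instance
  · have hinf : Infinite G := not_finite_iff_infinite.1 hfin
    obtain ⟨H, hH, hRK, hCB⟩ : ∃ H : Subgroup G, H.FiniteIndex ∧ RK H 8 ∧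
        ∀ (p : ℕ) [Fact p.Prime], CB p H := by
      rcases h with ⟨C, hC⟩ | ⟨C, hC⟩
      · exact LocA_exists 2 (Or.inl rfl) C hC hG hinf hs
      · exact LocA_exists 3 (Or.inr rfl) C hC hG hinf hs
    obtain ⟨h1, h2⟩ := LocA_ind 8 H (fg_subgroup hG H hH) (hs.subgroup H)
      (hst.of_injective H.subtype H.subtype_injective) hRK hCB
    exact ⟨virt_of_finiteIndex H hH h1, h2.of_finiteIndex H hH⟩

theorem LocA_main (h : IsPDGroup G 2 ∨ IsPDGroup G 3) (hst : LocGr G) :
    ¬ IntermediateGrowth G ∧ (SubexpGrowth G → Group.IsVirtuallyNilpotent G) := by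
  constructor
  · rintro ⟨S, hS, hP, hE⟩
    have hG : Group.FG G := ⟨⟨S, hS⟩⟩
    exact hP ((LocA_sub h hst hG (SubEx.of_subexp ⟨S, hS, hE⟩)).2 S)
  · rintro ⟨S, hS, hE⟩
    have hG : Group.FG G := ⟨⟨S, hS⟩⟩
    exact (LocA_sub h hst hG (SubEx.of_subexp ⟨S, hS, hE⟩)).1

theorem LocA_pdc (h : PDC.IsPDGroup G 2 ∨ PDC.IsPDGroup G 3)
    (hst : ∀ M : Subgroup G, M.FG → Infinite M → ∃ N : Subgroup G, N < M ∧ N.relIndex M ≠ 0) :
    ¬ PDC.IntermediateGrowth G ∧ (PDC.SubexpGrowth G → Group.IsVirtuallyNilpotent G) :=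
  LocA_main (h.imp isPDGroup_of_pdc isPDGroup_of_pdc) hst

end PDG
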